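import Mathlib

/-!
# The monoid of the transformations made by the passes of a program
-/

set_option autoImplicit false

namespace Pool.Agent.V7H36.LR

/-- transformations made by `p` passes over a piece of the input, from left to right and from right
to left -/
@[ext]
structure Tr (w p : ℕ) where
  /-- from left to right -/
  fwd : Fin p → Fin w → Fin w
  /-- from right to left -/
  bwd : Fin p → Fin w → Fin w

instance (w p : ℕ) : Mul (Tr w p) :=
  ⟨fun a b => ⟨fun j s => b.fwd j (a.fwd j s), fun j s => a.bwd j (b.bwd j s)⟩⟩

instance (w p : ℕ) : One (Tr w p) := ⟨⟨fun _ s => s, fun _ s => s⟩⟩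

instance (w p : ℕ) : Monoid (Tr w p) where
  mul_assoc _ _ _ := rfl
  one_mul _ := rfl
  mul_one _ := rfl

noncomputable instance (w p : ℕ) : Fintype (Tr w p) :=
  Fintype.ofInjective (fun a : Tr w p => (a.fwd, a.bwd)) (fun a b h => by
    simp only [Prod.mk.injEq] at h
    exact Tr.ext h.1 h.2)

theorem fwd_prod {w p : ℕ} (l : List (Tr w p)) (j : Fin p) : ∀ s : Fin w,
    l.prod.fwd j s = (l.map (fun m => m.fwd j)).foldl (fun s f => f s) s := by
  induction l with
  | nil => intro s; rfl
  | cons m l ih =>
    intro s
    rw [List.prod_cons, List.map_cons, List.foldl_cons, ← ih]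
    rfl

theorem bwd_prod {w p : ℕ} (l : List (Tr w p)) (j : Fin p) : ∀ s : Fin w,
    l.prod.bwd j s = (l.map (fun m => m.bwd j)).foldr (fun f s => f s) s := by
  induction l with
  | nil => intro s; rfl
  | cons m l ih =>
    intro s
    rw [List.prod_cons, List.map_cons, List.foldr_cons, ← ih]
    rfl

end Pool.Agent.V7H36.LR
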