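import Pool.Agent.V7H36.LR.Mid

/-!
# Simon's factorization forests for multiplicative labellings of intervals
-/

set_option autoImplicit false

namespace Pool.Agent.V7H36.LR

open Finset

/-- factorization trees of height `h` -/
inductive Fact {S : Type} [Monoid S] (lam : ℕ → ℕ → S) : ℕ → ℕ → ℕ → Prop
  | leaf (h i : ℕ) : Fact lam h i (i + 1)
  | bin (h i m j : ℕ) : Fact lam h i m → Fact lam h m j → Fact lam (h + 1) i j
  | idem (h : ℕ) (c : ℕ → ℕ) (k : ℕ) (e : S) : 0 < k → e * e = e →
      (∀ t < k, lam (c t) (c (t + 1)) = e) → (∀ t < k, Fact lam h (c t) (c (t + 1))) →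
      Fact lam (h + 1) (c 0) (c k)

section
variable {S : Type} [Monoid S] {lam : ℕ → ℕ → S}

theorem Fact.lt {h i j : ℕ} (H : Fact lam h i j) : i < j := by
  induction H with
  | leaf h i => omega
  | bin h i m j _ _ h1 h2 => omega
  | idem h c k e hk _ _ _ ih =>
    have : ∀ t, t ≤ k → c 0 + t ≤ c t := by
      intro t
      induction t with
      | zero => intro _; simp
      | succ t ih2 =>
        intro ht
        have h1 := ih2 (by omega)
        have h2 := ih t (by omega)
        omega
    have h3 := this k le_rfl
    omega

theorem Fact.succ {h i j : ℕ} (H : Fact lam h i j) : Fact lam (h + 1) i j := by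
  induction H with
  | leaf h i => exact Fact.leaf _ _
  | bin h i m j _ _ h1 h2 => exact Fact.bin _ _ _ _ h1 h2
  | idem h c k e hk he hl _ ih => exact Fact.idem _ c k e hk he hl ih

theorem Fact.mono {h h' i j : ℕ} (H : Fact lam h i j) (hh : h ≤ h') : Fact lam h' i j := by
  obtain ⟨n, rfl⟩ := Nat.exists_eq_add_of_le hh
  induction n with
  | zero => exact H
  | succ n ih => exact (ih (by omega)).succ

/-- chains of intervals with the same label -/
def IC (lam : ℕ → ℕ → S) (h : ℕ) (e : S) (i j : ℕ) : Prop :=
  ∃ (c : ℕ → ℕ) (k : ℕ), 0 < k ∧ c 0 = i ∧ c k = j ∧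
    ∀ t < k, lam (c t) (c (t + 1)) = e ∧ Fact lam h (c t) (c (t + 1))

theorem IC.single {h : ℕ} {e : S} {i j : ℕ} (h1 : Fact lam h i j) (h2 : lam i j = e) :
    IC lam h e i j := by
  refine ⟨fun t => if t = 0 then i else j, 1, by omega, by simp, by simp, fun t ht => ?_⟩
  have : t = 0 := by omega
  subst this
  simpa using ⟨h2, h1⟩

theorem IC.snoc {h : ℕ} {e : S} {i j l : ℕ} (h0 : IC lam h e i j) (h1 : Fact lam h j l)
    (h2 : lam j l = e) : IC lam h e i l := by
  obtain ⟨c, k, hk, hc0, hck, hc⟩ := h0
  refine ⟨fun t => if t ≤ k then c t else l, k + 1, by omega, by simpa using hc0, by simp,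
    fun t ht => ?_⟩
  by_cases htk : t = k
  · subst htk
    simp only [le_refl, if_true, if_neg (by omega : ¬ t + 1 ≤ t), hck]
    exact ⟨h2, h1⟩
  · simp only [if_pos (by omega : t ≤ k), if_pos (by omega : t + 1 ≤ k)]
    exact hc t (by omega)

/-- elimination of colours -/
theorem elim {h0 m : ℕ} {C : Type} [DecidableEq C] (τ : ℕ → ℕ) (γ : ℕ → C) (ε : C → S)
    (hblock : ∀ l < m, Fact lam h0 (τ l) (τ (l + 1)))
    (hcol : ∀ l l', 0 < l → l < l' → l' < m → γ l = γ l' →
      lam (τ l) (τ l') = ε (γ l) ∧ ε (γ l) * ε (γ l) = ε (γ l)) (Γ : Finset C) :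
    ∀ a b, a < b → b ≤ m → (∀ l, a < l → l < b → γ l ∈ Γ) →
      Fact lam (h0 + 3 * Γ.card) (τ a) (τ b) := by
  induction Γ using Finset.induction_on with
  | empty =>
    intro a b hab hb hl
    have : b = a + 1 := by
      by_contra hne
      have := hl (a + 1) (by omega) (by omega)
      simp at this
    subst this
    simpa using hblock a (by omega)
  | insert γ0 Γ hγ0 ih =>
    intro a b hab hb hl
    set H := h0 + 3 * Γ.card with hH
    have key : ∀ b, a < b → b ≤ m → (∀ l, a < l → l < b → γ l ∈ insert γ0 Γ) →
        (∀ l, a < l → l < b → γ l ≠ γ0) ∨ ∃ l1 l2, a < l1 ∧ l1 ≤ l2 ∧ l2 < b ∧ γ l1 = γ0 ∧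
          γ l2 = γ0 ∧ (∀ l, l2 < l → l < b → γ l ≠ γ0) ∧ Fact lam H (τ a) (τ l1) ∧
          (l1 = l2 ∨ IC lam H (ε γ0) (τ l1) (τ l2)) := by
      intro b
      induction b with
      | zero => intro h; omega
      | succ b ihb =>
        intro hab hb hl
        rcases eq_or_lt_of_le (Nat.lt_succ_iff.1 hab) with rfl | hab'
        · left
          intro l h1 h2
          omega
        have hb' := ihb hab' (by omega) (fun l h1 h2 => hl l h1 (by omega))
        by_cases hcb : γ b = γ0
        · right
          rcases hb' with hb' | ⟨l1, l2, g1, g2, g3, g4, g5, g6, g7, g8⟩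
          · refine ⟨b, b, hab', le_rfl, by omega, hcb, hcb, fun l h1 h2 => by omega, ?_,
              Or.inl rfl⟩
            refine ih a b hab' (by omega) (fun l h1 h2 => ?_)
            exact (Finset.mem_insert.1 (hl l h1 (by omega))).resolve_left (hb' l h1 h2)
          · refine ⟨l1, b, g1, by omega, by omega, g4, hcb, fun l h1 h2 => by omega, g7, ?_⟩
            right
            have hseg : Fact lam H (τ l2) (τ b) := by
              refine ih l2 b g3 (by omega) (fun l h1 h2 => ?_)
              exact (Finset.mem_insert.1 (hl l (by omega) (by omega))).resolve_left (g6 l h1 h2)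
            have hlab := (hcol l2 b (by omega) g3 (by omega) (g5.trans hcb.symm)).1
            rw [g5] at hlab
            rcases g8 with rfl | g8
            · exact IC.single hseg hlab
            · exact g8.snoc hseg hlab
        · rcases hb' with hb' | ⟨l1, l2, g1, g2, g3, g4, g5, g6, g7, g8⟩
          · left
            intro l h1 h2
            rcases eq_or_lt_of_le (Nat.lt_succ_iff.1 h2) with rfl | h3
            · exact hcb
            · exact hb' l h1 h3
          · right
            refine ⟨l1, l2, g1, g2, by omega, g4, g5, fun l h1 h2 => ?_, g7, g8⟩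
            rcases eq_or_lt_of_le (Nat.lt_succ_iff.1 h2) with rfl | h3
            · exact hcb
            · exact g6 l h1 h3
    have hcardi : (insert γ0 Γ).card = Γ.card + 1 := Finset.card_insert_of_notMem hγ0
    rw [hcardi]
    rcases key b hab hb hl with hb' | ⟨l1, l2, g1, g2, g3, g4, g5, g6, g7, g8⟩
    · refine (ih a b hab hb (fun l h1 h2 => ?_)).mono (by omega)
      exact (Finset.mem_insert.1 (hl l h1 h2)).resolve_left (hb' l h1 h2)
    · have hseg : Fact lam H (τ l2) (τ b) := by
        refine ih l2 b g3 (by omega) (fun l h1 h2 => ?_)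
        exact (Finset.mem_insert.1 (hl l (by omega) (by omega))).resolve_left (g6 l h1 h2)
      have h2 : Fact lam (H + 2) (τ a) (τ l2) := by
        rcases g8 with rfl | ⟨c, k, hk, hc0, hck, hc⟩
        · exact g7.mono (by omega)
        · refine Fact.bin (H + 1) (τ a) (τ l1) (τ l2) g7.succ ?_
          have hlt : l1 < l2 := by
            rcases eq_or_lt_of_le g2 with rfl | hh
            · exfalso
              have : Fact lam (H + 1) (c 0) (c k) := by
                -- the chain cannot be a loop
                by_contra
                have : ∀ t, t ≤ k → c 0 + t ≤ c t := by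
                  intro t
                  induction t with
                  | zero => intro _; simp
                  | succ t ih2 =>
                    intro ht
                    have h1 := ih2 (by omega)
                    have h2 := (hc t (by omega)).2.lt
                    omega
                have h3 := this k le_rfl
                omega
              have := this.lt
              omega
            · exact hh
          have hid := (hcol l1 l2 (by omega) hlt (by omega) (g4.trans g5.symm)).2
          rw [g4] at hid
          have := Fact.idem H c k (ε γ0) hk hid (fun t ht => (hc t ht).1) (fun t ht => (hc t ht).2)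
          rw [hc0, hck] at this
          exact this
      have h3 := Fact.bin (H + 2) (τ a) (τ l2) (τ b) h2 (hseg.mono (by omega))
      exact h3.mono (by omega)

/-- **Simon's factorization forest theorem** -/
theorem simon [Fintype S] (hlam : ∀ i j k, i < j → j < k → lam i j * lam j k = lam i k) :
    ∀ δ : ℕ, ∀ i j, i < j → up (lam i j) ≤ δ →
      Fact lam (δ * (2 + 3 * Fintype.card (S × S))) i j := by
  classical
  intro δ
  induction δ with
  | zero =>
    intro i j _ h
    have := up_pos (lam i j)
    omega
  | succ δ ih =>
    intro i j hij hup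
    set H := δ * (2 + 3 * Fintype.card (S × S)) with hH
    set z := lam i j with hz
    -- subintervals are above
    have habove : ∀ i' j', i ≤ i' → i' < j' → j' ≤ j → Bel z (lam i' j') := by
      intro i' j' h1 h2 h3
      have e1 : Bel (lam i j') (lam i' j') := by
        rcases eq_or_lt_of_le h1 with rfl | h1
        · exact Bel.refl _
        · rw [← hlam i i' j' h1 h2]
          exact bel_left _ _
      have e2 : Bel (lam i j) (lam i j') := by
        rcases eq_or_lt_of_le h3 with rfl | h3
        · exact Bel.refl _
        · rw [← hlam i j' j (by omega) h3]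
          exact bel_right _ _
      exact e2.trans e1
    have hstrict : ∀ i' j', i ≤ i' → i' < j' → j' ≤ j → ¬ Bel (lam i' j') z →
        Fact lam H i' j' := by
      intro i' j' h1 h2 h3 h4
      refine ih i' j' h2 ?_
      have := up_lt (habove i' j' h1 h2 h3) h4
      omega
    have greedy : ∀ n, i + n ≤ j → ∃ (τ : ℕ → ℕ) (m : ℕ), τ 0 = i ∧
        (∀ l < m, τ l < τ (l + 1)) ∧
        (∀ l < m, Fact lam (H + 1) (τ l) (τ (l + 1)) ∧ Bel (lam (τ l) (τ (l + 1))) z) ∧
        τ m ≤ i + n ∧ (τ m = i + n ∨ (τ m < i + n ∧ ¬ Bel (lam (τ m) (i + n)) z)) := by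
      intro n
      induction n with
      | zero =>
        intro _
        exact ⟨fun _ => i, 0, rfl, fun l hl => by omega, fun l hl => by omega, by simp,
          Or.inl (by simp)⟩
      | succ n ihn =>
        intro hn
        obtain ⟨τ, m, h0, h1, h2, h3, h4⟩ := ihn (by omega)
        have hτi : ∀ l, l ≤ m → i ≤ τ l := by
          intro l
          induction l with
          | zero => intro _; omega
          | succ l ihl =>
            intro hl
            have e1 := ihl (by omega)
            have e2 := h1 l (by omega)
            omega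
        by_cases hb : Bel (lam (τ m) (i + (n + 1))) z
        · refine ⟨fun l => if l ≤ m then τ l else i + (n + 1), m + 1, by simpa using h0, ?_, ?_,
            by simp, Or.inl (by simp)⟩
          · intro l hl
            by_cases hlm : l = m
            · subst hlm
              simp only [le_refl, if_true, if_neg (by omega : ¬ l + 1 ≤ l)]
              omega
            · simp only [if_pos (by omega : l ≤ m), if_pos (by omega : l + 1 ≤ m)]
              exact h1 l (by omega)
          · intro l hl
            by_cases hlm : l = m
            · subst hlm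
              simp only [le_refl, if_true, if_neg (by omega : ¬ l + 1 ≤ l)]
              refine ⟨?_, hb⟩
              rcases h4 with h4 | ⟨h4, h5⟩
              · rw [h4]
                exact Fact.leaf _ _
              · exact Fact.bin H _ (i + n) _ (hstrict _ _ (hτi _ le_rfl) h4 (by omega) h5)
                  (Fact.leaf _ _)
            · simp only [if_pos (by omega : l ≤ m), if_pos (by omega : l + 1 ≤ m)]
              exact h2 l (by omega)
        · exact ⟨τ, m, h0, h1, h2, by omega, Or.inr ⟨by omega, hb⟩⟩
    obtain ⟨n, hn⟩ := Nat.exists_eq_add_of_lt hij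
    obtain ⟨τ, m, h0, h1, h2, h3, h4⟩ := greedy (n + 1) (by omega)
    rw [show i + (n + 1) = j by omega] at h3 h4
    have hτi : ∀ l, l ≤ m → i ≤ τ l := by
      intro l
      induction l with
      | zero => intro _; omega
      | succ l ihl =>
        intro hl
        have e1 := ihl (by omega)
        have e2 := h1 l (by omega)
        omega
    have hmono : ∀ l l', l < l' → l' ≤ m → τ l < τ l' := by
      intro l l' hl
      induction l', hl using Nat.le_induction with
      | base => intro hm; exact h1 l (by omega)
      | succ l' _ ihl =>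
        intro hm
        have e1 := ihl (by omega)
        have e2 := h1 l' (by omega)
        omega
    have hm : 0 < m := by
      rcases Nat.eq_zero_or_pos m with rfl | hm
      · exfalso
        rcases h4 with h4 | ⟨_, h4⟩
        · omega
        · rw [h0] at h4
          exact h4 (Bel.refl z)
      · exact hm
    let ε : S × S → S := fun c => if hw : ∃ w, c.2 = w * (c.1 * c.2) then hw.choose * c.1 else 1
    have hfact : Fact lam (H + 1 + 3 * (Finset.univ : Finset (S × S)).card) (τ 0) (τ m) := by
      refine elim τ (fun l => (lam (τ 0) (τ l), lam (τ l) (τ (l + 1)))) ε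
        (fun l hl => (h2 l hl).1) ?_ Finset.univ 0 m hm le_rfl (fun l _ _ => Finset.mem_univ _)
      intro l l' hl0 hll hl' heq
      simp only [Prod.mk.injEq] at heq
      obtain ⟨hp, hq⟩ := heq
      set p := lam (τ 0) (τ l) with hpp
      set q := lam (τ l) (τ (l + 1)) with hqq
      set g := lam (τ l) (τ l') with hgg
      have hpg : p * g = p := by
        rw [hpp, hgg, hlam _ _ _ (hmono 0 l hl0 (by omega)) (hmono l l' hll (by omega)), ← hp]
      have hgq : ∃ v, g = q * v := by
        rcases eq_or_lt_of_le (Nat.succ_le_of_lt hll) with hh | hh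
        · exact ⟨1, by rw [mul_one, hgg, hqq, ← hh]⟩
        · exact ⟨lam (τ (l + 1)) (τ l'), (hlam _ _ _ (hmono l (l + 1) (by omega) (by omega))
            (hmono (l + 1) l' hh (by omega))).symm⟩
      have hpq : p * q = lam (τ 0) (τ (l + 1)) :=
        hlam _ _ _ (hmono 0 l hl0 (by omega)) (hmono l (l + 1) (by omega) (by omega))
      have hw : ∃ w, (p, q).2 = w * ((p, q).1 * (p, q).2) := by
        have e1 : Bel q z := (h2 l (by omega)).2
        have e2 : Bel z (p * q) := by
          rw [hpq, h0]
          refine habove i (τ (l + 1)) le_rfl ?_ ?_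
          · rw [← h0]
            exact hmono 0 (l + 1) (by omega) (by omega)
          · rcases eq_or_lt_of_le (show l + 1 ≤ m by omega) with hh | hh
            · rw [hh]; exact h3
            · exact (hmono (l + 1) m hh le_rfl).le.trans h3
        obtain ⟨a, c, hac⟩ := e1.trans e2
        exact stabL (m := q) (t := p) (b := p * q) rfl hac
      have hε : ε (p, q) = hw.choose * p := dif_pos hw
      have hws : q = hw.choose * (p * q) := hw.choose_spec
      obtain ⟨v, hv⟩ := hgq
      have hg1 : g = hw.choose * p := by
        calc g = q * v := hv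
          _ = hw.choose * (p * q) * v := by rw [← hws]
          _ = hw.choose * (p * (q * v)) := by simp only [mul_assoc]
          _ = hw.choose * p := by rw [← hv, hpg]
      have hg2 : g * g = g := by
        calc g * g = hw.choose * p * g := by rw [← hg1]
          _ = hw.choose * p := by rw [mul_assoc, hpg]
          _ = g := hg1.symm
      rw [hε, ← hg1]
      exact ⟨rfl, hg2⟩
    rw [h0, Finset.card_univ] at hfact
    have hfin : Fact lam (H + 1 + 3 * Fintype.card (S × S) + 1) i j := by
      rcases h4 with h4 | ⟨h4, h5⟩
      · rw [h4] at hfact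
        exact hfact.succ
      · exact Fact.bin _ _ (τ m) _ hfact
          ((hstrict (τ m) j (hτi m le_rfl) h4 le_rfl h5).mono (by omega))
    exact hfin.mono (by rw [hH]; ring_nf; omega)

end

end Pool.Agent.V7H36.LR
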