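import Pool.Agent.V7H36.LR.Big
import Pool.Agent.V7H36.LR.Simon

/-!
# Products of two-party gadgets over a finite monoid
-/

set_option autoImplicit false

namespace Pool.Agent.V7H36.LR

open Finset
open scoped Pointwise

section
variable {M α β : Type} [Monoid M]

/-- possible values of the part `[i, j)` -/
def Val (g : ℕ → α → β → M) (i j : ℕ) : Set M := {m | ∃ x y, TT g i j x y = m}

/-- the contexts do not distinguish `m` and `m'` at the place `[i, j)` -/
def Eqv (g : ℕ → α → β → M) (φ : M → Bool) (n i j : ℕ) (m m' : M) : Prop :=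
  ∀ u ∈ Val g 0 i, ∀ w ∈ Val g j n, φ (u * m * w) = φ (u * m' * w)

/-- gluing of inputs -/
def glue {γ : Type} (c : ℕ) (x x' : ℕ → γ) : ℕ → γ := fun l => if l < c then x l else x' l

theorem TT_mul {g : ℕ → α → β → M} {i j k : ℕ} (h1 : i ≤ j) (h2 : j ≤ k) (x : ℕ → α)
    (y : ℕ → β) : TT g i j x y * TT g j k x y = TT g i k x y := iv_mul _ h1 h2

theorem TT_glue_left {g : ℕ → α → β → M} {i j c : ℕ} (h : j ≤ c) (x x' : ℕ → α)
    (y y' : ℕ → β) : TT g i j (glue c x x') (glue c y y') = TT g i j x y := by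
  unfold TT
  refine iv_congr (fun l _ hl => ?_)
  simp only [glue, if_pos (by omega : l < c)]

theorem TT_glue_right {g : ℕ → α → β → M} {i j c : ℕ} (h : c ≤ i) (x x' : ℕ → α)
    (y y' : ℕ → β) : TT g i j (glue c x x') (glue c y y') = TT g i j x' y' := by
  unfold TT
  refine iv_congr (fun l hl _ => ?_)
  simp only [glue, if_neg (by omega : ¬ l < c)]

theorem val_mul (g : ℕ → α → β → M) {i j k : ℕ} (h1 : i ≤ j) (h2 : j ≤ k) :
    Val g i j * Val g j k = Val g i k := by
  ext m
  rw [Set.mem_mul]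
  constructor
  · rintro ⟨a, ⟨x, y, rfl⟩, b, ⟨x', y', rfl⟩, rfl⟩
    refine ⟨glue j x x', glue j y y', ?_⟩
    rw [← TT_mul h1 h2, TT_glue_left le_rfl, TT_glue_right le_rfl]
  · rintro ⟨x, y, rfl⟩
    exact ⟨_, ⟨x, y, rfl⟩, _, ⟨x, y, rfl⟩, TT_mul h1 h2 x y⟩

theorem val_self (g : ℕ → α → β → M) (i : ℕ) [Nonempty α] [Nonempty β] : Val g i i = {1} := by
  ext m
  constructor
  · rintro ⟨x, y, rfl⟩
    simp [TT, iv_self]
  · intro hm
    rw [Set.mem_singleton_iff] at hm
    subst hm
    obtain ⟨a⟩ := ‹Nonempty α›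
    obtain ⟨b⟩ := ‹Nonempty β›
    exact ⟨fun _ => a, fun _ => b, by simp [TT, iv_self]⟩

/-- the patterns of the part `[i, j)` -/
def lab (g : ℕ → α → β → M) (i j : ℕ) : Set (Fin 4 → Fin 4 → M) :=
  {p | ∃ (xs : Fin 4 → ℕ → α) (ys : Fin 4 → ℕ → β), ∀ a b, TT g i j (xs a) (ys b) = p a b}

theorem lab_mul (g : ℕ → α → β → M) {i j k : ℕ} (h1 : i ≤ j) (h2 : j ≤ k) :
    lab g i j * lab g j k = lab g i k := by
  ext p
  rw [Set.mem_mul]
  constructor
  · rintro ⟨a, ⟨xs, ys, ha⟩, b, ⟨xs', ys', hb⟩, rfl⟩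
    refine ⟨fun s => glue j (xs s) (xs' s), fun s => glue j (ys s) (ys' s), fun s t => ?_⟩
    rw [← TT_mul h1 h2, TT_glue_left le_rfl, TT_glue_right le_rfl, ha, hb]
    rfl
  · rintro ⟨xs, ys, hp⟩
    refine ⟨fun s t => TT g i j (xs s) (ys t), ⟨xs, ys, fun _ _ => rfl⟩,
      fun s t => TT g j k (xs s) (ys t), ⟨xs, ys, fun _ _ => rfl⟩, ?_⟩
    funext s t
    rw [← hp s t, ← TT_mul h1 h2]
    rfl

theorem val_eq_lab (g : ℕ → α → β → M) (i j : ℕ) :
    Val g i j = {m | ∃ p ∈ lab g i j, p 0 0 = m} := by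
  ext m
  constructor
  · rintro ⟨x, y, rfl⟩
    exact ⟨fun _ _ => TT g i j x y, ⟨fun _ => x, fun _ => y, fun _ _ => rfl⟩, rfl⟩
  · rintro ⟨p, ⟨xs, ys, hp⟩, rfl⟩
    exact ⟨xs 0, ys 0, hp 0 0⟩

theorem val_of_lab {g : ℕ → α → β → M} {i j i' j' : ℕ} (h : lab g i j = lab g i' j') :
    Val g i j = Val g i' j' := by
  rw [val_eq_lab, val_eq_lab, h]

/-- the rank of the indicator of a class -/
theorem rank_eqv [Fintype M] {g : ℕ → α → β → M} {φ : M → Bool} {n r : ℕ}
    (hF : RL ℝ r (fun (x : ℕ → α) (y : ℕ → β) => ind ℝ (φ (TT g 0 n x y) = true))) {i j : ℕ}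
    (hij : i ≤ j) (hjn : j ≤ n) (m : M) :
    RL ℝ ((r + 1) ^ (Fintype.card M ^ 2)) (fun x y => ind ℝ (Eqv g φ n i j (TT g i j x y) m)) := by
  classical
  have h1 : ∀ c ∈ (Finset.univ : Finset (M × M)), RL ℝ (r + 1) (fun (x : ℕ → α) (y : ℕ → β) =>
      ind ℝ (c.1 ∈ Val g 0 i → c.2 ∈ Val g j n →
        φ (c.1 * TT g i j x y * c.2) = φ (c.1 * m * c.2))) := by
    intro c _
    by_cases hc1 : c.1 ∈ Val g 0 i
    · by_cases hc2 : c.2 ∈ Val g j n
      · obtain ⟨x0, y0, h0⟩ := hc1
        obtain ⟨x1, y1, h1⟩ := hc2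
        have h2 := hF.lift (fun x : ℕ → α => glue i x0 (glue j x x1))
          (fun y : ℕ → β => glue i y0 (glue j y y1))
        have h3 : ∀ x y, TT g 0 n (glue i x0 (glue j x x1)) (glue i y0 (glue j y y1)) =
            c.1 * TT g i j x y * c.2 := by
          intro x y
          rw [← TT_mul (Nat.zero_le i) (hij.trans hjn), ← TT_mul hij hjn, TT_glue_left le_rfl,
            TT_glue_right le_rfl, TT_glue_right hij, TT_glue_left le_rfl, TT_glue_right le_rfl,
            h0, h1, mul_assoc]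
        by_cases hv : φ (c.1 * m * c.2) = true
        · refine (h2.mono (Nat.le_succ r)).congr (fun x y => ?_)
          rw [h3]
          refine ind_congr ?_
          rw [hv]
          exact ⟨fun h => h ⟨x0, y0, h0⟩ ⟨x1, y1, h1⟩, fun h _ _ => h⟩
        · have hv' : φ (c.1 * m * c.2) = false := by simpa using hv
          have h4 := (RL.const (A := ℕ → α) (B := ℕ → β) (1 : ℝ)).sub h2
          refine (h4.mono (by omega)).congr (fun x y => ?_)
          rw [h3, ← ind_not]
          refine ind_congr ?_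
          rw [hv', Bool.not_eq_true]
          exact ⟨fun h => h ⟨x0, y0, h0⟩ ⟨x1, y1, h1⟩, fun h _ _ => h⟩
      · refine ((RL.const (A := ℕ → α) (B := ℕ → β) (1 : ℝ)).mono (by omega)).congr
          (fun x y => ind_true (fun _ h => absurd h hc2))
    · refine ((RL.const (A := ℕ → α) (B := ℕ → β) (1 : ℝ)).mono (by omega)).congr
        (fun x y => ind_true (fun h => absurd h hc1))
  have h2 := RL.prod Finset.univ h1
  rw [Finset.card_univ, Fintype.card_prod, ← sq] at h2
  refine h2.congr (fun x y => ?_)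
  rw [← ind_forall]
  refine ind_congr ?_
  unfold Eqv
  constructor
  · intro h c hc1 hc2
    exact h _ hc1 _ hc2
  · intro h u hu w hw
    exact h (u, w) hu hw

theorem Eqv.refl {g : ℕ → α → β → M} {φ : M → Bool} {n i j : ℕ} (m : M) :
    Eqv g φ n i j m m := fun _ _ _ _ => rfl

theorem Eqv.symm {g : ℕ → α → β → M} {φ : M → Bool} {n i j : ℕ} {m m' : M}
    (h : Eqv g φ n i j m m') : Eqv g φ n i j m' m := fun u hu w hw => (h u hu w hw).symm

theorem Eqv.trans {g : ℕ → α → β → M} {φ : M → Bool} {n i j : ℕ} {m m' m'' : M}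
    (h : Eqv g φ n i j m m') (h' : Eqv g φ n i j m' m'') : Eqv g φ n i j m m'' :=
  fun u hu w hw => (h u hu w hw).trans (h' u hu w hw)

theorem Eqv.mul {g : ℕ → α → β → M} {φ : M → Bool} {n i j k : ℕ} (hij : i ≤ j) (hjk : j ≤ k)
    (hkn : k ≤ n) {m m' b b' : M} (h : Eqv g φ n i j m m') (h' : Eqv g φ n j k b b')
    (hb : b ∈ Val g j k) (hm' : m' ∈ Val g i j) : Eqv g φ n i k (m * b) (m' * b') := by
  intro u hu w hw
  have h1 : b * w ∈ Val g j n := by
    rw [← val_mul g hjk hkn]
    exact Set.mul_mem_mul hb hw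
  have h2 : u * m' ∈ Val g 0 j := by
    rw [← val_mul g (Nat.zero_le i) hij]
    exact Set.mul_mem_mul hu hm'
  have e1 := h u hu (b * w) h1
  have e2 := h' (u * m') h2 w hw
  simp only [mul_assoc] at e1 e2 ⊢
  rw [e1, e2]

/-- all classes of the part `[i, j)` have covers with `2 ^ t` rectangles -/
def Claim (g : ℕ → α → β → M) (φ : M → Bool) (n t i j : ℕ) : Prop :=
  ∀ m ∈ Val g i j, Cov (2 ^ t) (fun x y => Eqv g φ n i j (TT g i j x y) m)

theorem Claim.mono {g : ℕ → α → β → M} {φ : M → Bool} {n t t' i j : ℕ}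
    (h : Claim g φ n t i j) (ht : t ≤ t') : Claim g φ n t' i j :=
  fun m hm => (h m hm).mono (Nat.pow_le_pow_right (by norm_num) ht)

theorem Claim.bin [Fintype M] {g : ℕ → α → β → M} {φ : M → Bool} {n t t' i j k w : ℕ}
    (hw : Fintype.card M ≤ 2 ^ w) (hij : i ≤ j) (hjk : j ≤ k) (hkn : k ≤ n)
    (h : Claim g φ n t i j) (h' : Claim g φ n t' j k) : Claim g φ n (2 * w + t + t') i k := by
  classical
  intro m hm
  have C : Cov (2 ^ (2 * w + t + t')) (fun x y => ∃ c : M × M,
      (c.1 ∈ Val g i j ∧ c.2 ∈ Val g j k ∧ Eqv g φ n i k (c.1 * c.2) m) ∧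
      (Eqv g φ n i j (TT g i j x y) c.1 ∧ Eqv g φ n j k (TT g j k x y) c.2)) := by
    refine iUnion_le (N := 2 ^ t * 2 ^ t') (fun c => ?_) ?_
    · exact Cov.guard' (fun hg => (h c.1 hg.1).and (h' c.2 hg.2.1))
    · rw [Fintype.card_prod]
      calc Fintype.card M * Fintype.card M * (2 ^ t * 2 ^ t')
          ≤ 2 ^ w * 2 ^ w * (2 ^ t * 2 ^ t') := by gcongr
        _ = 2 ^ (2 * w + t + t') := by ring
  refine C.congr (fun x y => ?_)
  constructor
  · intro hm
    exact ⟨(TT g i j x y, TT g j k x y), ⟨⟨x, y, rfl⟩, ⟨x, y, rfl⟩, by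
      rw [TT_mul hij hjk]; exact hm⟩, Eqv.refl _, Eqv.refl _⟩
  · rintro ⟨c, ⟨h1, h2, h3⟩, h4, h5⟩
    rw [← TT_mul hij hjk]
    exact (Eqv.mul hij hjk hkn h4 h5 ⟨x, y, rfl⟩ h1).trans h3

section node
variable [Nonempty α] [Nonempty β]

/-- a node of the factorization tree: interior children -/
theorem claim_interior [Fintype M] {g : ℕ → α → β → M} {φ : M → Bool} {n r t w ρ : ℕ}
    (hw : Fintype.card M + 1 ≤ 2 ^ w) (hρ : (r + 1) ^ (Fintype.card M ^ 2) ≤ 2 ^ ρ)
    (hF : RL ℝ r (fun (x : ℕ → α) (y : ℕ → β) => ind ℝ (φ (TT g 0 n x y) = true)))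
    (c : ℕ → ℕ) (k : ℕ) (hk : 3 ≤ k) (e : Set (Fin 4 → Fin 4 → M)) (hee : e * e = e)
    (hlab : ∀ t < k, lab g (c t) (c (t + 1)) = e) (hc : ∀ t < k, c t < c (t + 1)) (hkn : c k ≤ n)
    (hcl : ∀ l < k, Claim g φ n t (c l) (c (l + 1))) :
    Claim g φ n (nodeLog w ρ t) (c 1) (c (k - 1)) := by
  classical
  have hmono : ∀ a b, a ≤ b → b ≤ k → c a ≤ c b := by
    intro a b hab
    induction b, hab using Nat.le_induction with
    | base => intro _; exact le_rfl
    | succ b _ ih =>
      intro hb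
      have h1 := ih (by omega)
      have h2 := hc b (by omega)
      omega
  have hlabs : ∀ a d, a < d → d ≤ k → lab g (c a) (c d) = e := by
    intro a d had
    induction d, had using Nat.le_induction with
    | base => intro h; exact hlab a (by omega)
    | succ d hd ih =>
      intro h
      rw [← lab_mul g (hmono a d (by omega) (by omega)) (hmono d (d + 1) (by omega) h),
        ih (by omega), hlab d (by omega), hee]
  set V : Set M := {m | ∃ p ∈ e, p 0 0 = m} with hV
  have hval : ∀ a d, a < d → d ≤ k → Val g (c a) (c d) = V := by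
    intro a d h1 h2
    rw [val_eq_lab, hlabs a d h1 h2]
  have hVV : V * V = V := by
    have h1 := val_mul g (hmono 0 1 (by omega) (by omega)) (hmono 1 2 (by omega) (by omega))
    rw [hval 0 1 (by omega) (by omega), hval 1 2 (by omega) (by omega),
      hval 0 2 (by omega) (by omega)] at h1
    exact h1
  set U : Set M := Val g 0 (c 1) with hU
  set U' : Set M := Val g (c (k - 1)) n with hU'
  have hc0n : ∀ a, a ≤ k → c a ≤ n := fun a ha => (hmono a k ha le_rfl).trans hkn
  have hUV : U * V = U := by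
    have h1 := val_mul g (Nat.zero_le (c 0)) (hmono 0 1 (by omega) (by omega))
    rw [hval 0 1 (by omega) (by omega), ← hU] at h1
    rw [← h1, mul_assoc, hVV]
  have hVU : V * U' = U' := by
    have h1 := val_mul g (hmono (k - 1) k (by omega) le_rfl) hkn
    rw [hval (k - 1) k (by omega) le_rfl, ← hU'] at h1
    rw [← h1, ← mul_assoc, hVV]
  have hpre : ∀ a, 1 ≤ a → a < k → Val g 0 (c a) = U := by
    intro a h1 h2
    rcases eq_or_lt_of_le h1 with rfl | h1
    · rfl
    · rw [← val_mul g (Nat.zero_le (c 1)) (hmono 1 a (by omega) (by omega)),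
        hval 1 a h1 (by omega), ← hU, hUV]
  have hsuf : ∀ a, 1 ≤ a → a < k → Val g (c a) n = U' := by
    intro a h1 h2
    rcases eq_or_lt_of_le (show a ≤ k - 1 by omega) with rfl | h3
    · rfl
    · rw [← val_mul g (hmono a (k - 1) (by omega) (by omega)) (hc0n (k - 1) (by omega)),
        hval a (k - 1) h3 (by omega), ← hU', hVU]
  -- the semigroup of values modulo the contexts
  let SV : Subsemigroup M := ⟨V, fun {a b} ha hb => by
    rw [← hVV]; exact Set.mul_mem_mul ha hb⟩
  let R0 : SV → SV → Prop := fun a b => ∀ u ∈ U, ∀ w ∈ U', φ (u * a * w) = φ (u * b * w)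
  have hR0 : Equivalence R0 := ⟨fun a u _ w _ => rfl, fun h u hu w hw => (h u hu w hw).symm,
    fun h h' u hu w hw => (h u hu w hw).trans (h' u hu w hw)⟩
  let con : Con SV := ⟨⟨R0, hR0⟩, by
    intro a a' b b' h h' u hu w hw
    have h1 : (b : M) * w ∈ U' := by
      rw [← hVU]; exact Set.mul_mem_mul b.2 hw
    have h2 : u * (a' : M) ∈ U := by
      rw [← hUV]; exact Set.mul_mem_mul hu a'.2
    have e1 := h u hu (b * w) h1
    have e2 := h' (u * a') h2 w hw
    change φ (u * ((a : M) * (b : M)) * w) = φ (u * ((a' : M) * (b' : M)) * w)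
    simp only [mul_assoc] at e1 e2 ⊢
    rw [e1, e2]⟩
  let W := WithOne con.Quotient
  let mkW : SV → W := fun v => ((v : con.Quotient) : WithOne con.Quotient)
  have hmk_mul : ∀ a b : SV, mkW (a * b) = mkW a * mkW b := by
    intro a b
    simp only [mkW]
    rw [Con.coe_mul, WithOne.coe_mul]
  have hmk_eq : ∀ a b : SV, mkW a = mkW b ↔ R0 a b := by
    intro a b
    simp only [mkW]
    rw [WithOne.coe_inj]
    exact Con.eq con
  have hmk_one : ∀ a : SV, mkW a ≠ 1 := fun a => WithOne.coe_ne_one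
  have hmk_surj : ∀ q : W, q = 1 ∨ ∃ a : SV, mkW a = q := by
    intro q
    by_cases hq : q = 1
    · left; exact hq
    · right
      obtain ⟨q, rfl⟩ := WithOne.ne_one_iff_exists.1 hq
      obtain ⟨a, ha⟩ := Quotient.exists_rep q
      exact ⟨a, by simp only [mkW]; rw [← ha]; rfl⟩
  have hfin : Function.Surjective (fun o : Option M => match o with
      | none => (1 : W)
      | some m => if h : m ∈ V then mkW ⟨m, h⟩ else 1) := by
    intro q
    rcases hmk_surj q with rfl | ⟨⟨m, hm⟩, rfl⟩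
    · exact ⟨none, rfl⟩
    · exact ⟨some m, by simp only; exact dif_pos hm⟩
  have : Finite W := Finite.of_surjective _ hfin
  let _ : Fintype W := Fintype.ofFinite W
  have hcardW : Fintype.card W ≤ 2 ^ w := by
    have := Fintype.card_le_of_surjective _ hfin
    rw [Fintype.card_option] at this
    omega
  -- children
  set k' := k - 2 with hk'
  let st : ℕ → ℕ := fun j => if j < k' then j + 1 else 1
  have hst1 : ∀ j, 1 ≤ st j := fun j => by
    simp only [st]; split_ifs <;> omega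
  have hst2 : ∀ j, st j + 1 < k := fun j => by
    simp only [st]; split_ifs <;> omega
  have hvst : ∀ j x y, TT g (c (st j)) (c (st j + 1)) x y ∈ V := by
    intro j x y
    rw [← hval (st j) (st j + 1) (by omega) (by have := hst2 j; omega)]
    exact ⟨x, y, rfl⟩
  let T : ℕ → (ℕ → α) → (ℕ → β) → W := fun j x y => mkW ⟨_, hvst j x y⟩
  have hT : Homog T := by
    refine ⟨?_, ?_, fun j x y => hmk_one _, ?_⟩
    · intro j j' xs ys
      have h1 : (fun a b => TT g (c (st j)) (c (st j + 1)) (xs a) (ys b)) ∈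
          lab g (c (st j')) (c (st j' + 1)) := by
        rw [hlabs (st j') (st j' + 1) (by omega) (by have := hst2 j'; omega),
          ← hlabs (st j) (st j + 1) (by omega) (by have := hst2 j; omega)]
        exact ⟨xs, ys, fun _ _ => rfl⟩
      obtain ⟨xs', ys', h2⟩ := h1
      refine ⟨xs', ys', fun a b => ?_⟩
      simp only [T]
      congr 1
      exact Subtype.ext (h2 a b)
    · intro xs ys xs' ys'
      have h1 : (fun a b => TT g (c (st 0)) (c (st 0 + 1)) (xs a) (ys b)) *
          (fun a b => TT g (c (st 0)) (c (st 0 + 1)) (xs' a) (ys' b)) ∈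
          lab g (c (st 0)) (c (st 0 + 1)) := by
        have e1 := hlabs (st 0) (st 0 + 1) (by omega) (by have := hst2 0; omega)
        rw [e1, ← hee]
        refine Set.mul_mem_mul ?_ ?_
        · rw [← e1]
          exact ⟨xs, ys, fun _ _ => rfl⟩
        · rw [← e1]
          exact ⟨xs', ys', fun _ _ => rfl⟩
      obtain ⟨xs'', ys'', h2⟩ := h1
      refine ⟨xs'', ys'', fun a b => ?_⟩
      simp only [T]
      rw [← hmk_mul]
      congr 1
      exact Subtype.ext (h2 a b)
    · intro q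
      rcases hmk_surj q with rfl | ⟨⟨m, hm⟩, rfl⟩
      · left; rfl
      · right
        have hm2 : m ∈ V := hm
        rw [← hval (st 0) (st 0 + 1) (by omega) (by have := hst2 0; omega)] at hm2
        obtain ⟨x, y, hxy⟩ := hm2
        refine ⟨x, y, ?_⟩
        simp only [T]
        congr 1
        exact Subtype.ext hxy
  -- gluing the inputs of the children
  let idx : ℕ → ℕ := fun l => if h : ∃ j, j < k' ∧ c (j + 1) ≤ l ∧ l < c (j + 2) then h.choose else 0
  have hidx : ∀ j l, j < k' → c (j + 1) ≤ l → l < c (j + 2) → idx l = j := by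
    intro j l h1 h2 h3
    have h : ∃ j, j < k' ∧ c (j + 1) ≤ l ∧ l < c (j + 2) := ⟨j, h1, h2, h3⟩
    have e1 : idx l = h.choose := dif_pos h
    obtain ⟨g1, g2, g3⟩ := h.choose_spec
    rw [e1]
    by_contra hne
    rcases lt_or_gt_of_ne hne with hlt | hlt
    · have := hmono (h.choose + 2) (j + 1) (by omega) (by omega)
      omega
    · have := hmono (j + 2) (h.choose + 1) (by omega) (by omega)
      omega
  let GX : (ℕ → ℕ → α) → ℕ → α := fun x l => x (idx l) l
  let GY : (ℕ → ℕ → β) → ℕ → β := fun y l => y (idx l) l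
  have hprod : ∀ d, d < k' → ∀ x y, ∃ hm : TT g (c 1) (c (d + 2)) (GX x) (GY y) ∈ V,
      TT T 0 (d + 1) x y = mkW ⟨_, hm⟩ := by
    have hstep : ∀ d, d < k' → ∀ x y, TT g (c (d + 1)) (c (d + 2)) (GX x) (GY y) =
        TT g (c (st d)) (c (st d + 1)) (x d) (y d) := by
      intro d hd x y
      have e1 : st d = d + 1 := by simp only [st]; rw [if_pos (by omega)]
      rw [e1]
      unfold TT
      refine iv_congr (fun l h1 h2 => ?_)
      have : idx l = d := hidx d l (by omega) h1 h2
      simp only [GX, GY, this]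
    intro d
    induction d with
    | zero =>
      intro hd x y
      have e2 := hstep 0 hd x y
      rw [zero_add] at e2
      refine ⟨by rw [zero_add, e2]; exact hvst 0 _ _, ?_⟩
      have e3 : TT T 0 (0 + 1) x y = T 0 (x 0) (y 0) := iv_one _ 0
      rw [e3]
      simp only [T]
      congr 1
      exact Subtype.ext e2.symm
    | succ d ih =>
      intro hd' x y
      obtain ⟨hm, h1⟩ := ih (by omega) x y
      have e2 := hstep (d + 1) hd' x y
      have e3 : TT g (c 1) (c (d + 1 + 2)) (GX x) (GY y) =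
          TT g (c 1) (c (d + 2)) (GX x) (GY y) *
            TT g (c (st (d + 1))) (c (st (d + 1) + 1)) (x (d + 1)) (y (d + 1)) := by
        rw [← e2]
        exact (TT_mul (hmono 1 (d + 2) (by omega) (by omega))
          (hmono (d + 2) (d + 1 + 2) (by omega) (by omega)) _ _).symm
      have hm' : TT g (c 1) (c (d + 1 + 2)) (GX x) (GY y) ∈ V := by
        rw [e3, ← hVV]
        exact Set.mul_mem_mul hm (hvst (d + 1) _ _)
      refine ⟨hm', ?_⟩
      have e4 : TT T 0 (d + 1 + 1) x y = TT T 0 (d + 1) x y * T (d + 1) (x (d + 1)) (y (d + 1)) :=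
        iv_right _ (Nat.zero_le (d + 1))
      rw [e4, h1]
      simp only [T]
      rw [← hmk_mul]
      congr 1
      exact Subtype.ext e3.symm
  have hk1 : k' - 1 + 2 = k - 1 := by omega
  have hk2 : k' - 1 + 1 = k' := by omega
  have hprod2 : ∀ x y, ∃ hm : TT g (c 1) (c (k - 1)) (GX x) (GY y) ∈ V,
      TT T 0 k' x y = mkW ⟨_, hm⟩ := by
    intro x y
    have h1 := hprod (k' - 1) (by omega) x y
    rw [hk2, hk1] at h1
    exact h1
  have hrank : RankHyp T k' (2 ^ ρ) := by
    intro z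
    rcases hmk_surj z with rfl | ⟨⟨m, hm⟩, rfl⟩
    · refine ((RL.zero (A := ℕ → ℕ → α) (B := ℕ → ℕ → β) (K := ℝ)).mono (Nat.zero_le _)).congr
        (fun x y => ind_false ?_)
      obtain ⟨hm, h1⟩ := hprod2 x y
      rw [h1]
      exact hmk_one _
    · have h1 := ((rank_eqv hF (hmono 1 (k - 1) (by omega) (by omega))
        (hc0n (k - 1) (by omega)) m).mono hρ).lift GX GY
      refine h1.congr (fun x y => ind_congr ?_)
      obtain ⟨hm', h2⟩ := hprod2 x y
      rw [h2, hmk_eq]
      exact Iff.rfl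
  have hcov : ∀ j z, Cov (2 ^ t) (fun x y => T j x y = z) := by
    intro j z
    rcases hmk_surj z with rfl | ⟨⟨m, hm⟩, rfl⟩
    · exact ((Cov.const False).mono Nat.one_le_two_pow).congr
        (fun x y => iff_of_false (hmk_one _) id)
    · have hm2 : m ∈ V := hm
      rw [← hval (st j) (st j + 1) (by omega) (by have := hst2 j; omega)] at hm2
      refine (hcl (st j) (by have := hst2 j; omega) m hm2).congr (fun x y => ?_)
      simp only [T]
      rw [hmk_eq]
      simp only [R0, Eqv]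
      rw [hpre (st j) (hst1 j) (by have := hst2 j; omega),
        hsuf (st j + 1) (by omega) (hst2 j)]
  intro m hm
  rw [hval 1 (k - 1) (by omega) (by omega)] at hm
  have h1 := (node_cov hT (k := k') (by omega) hcardW hrank hcov (mkW ⟨m, hm⟩)).lift
    (fun (x : ℕ → α) (_ : ℕ) => x) (fun (y : ℕ → β) (_ : ℕ) => y)
  refine h1.congr (fun x y => ?_)
  obtain ⟨hm', h2⟩ := hprod2 (fun _ => x) (fun _ => y)
  rw [h2, hmk_eq]
  exact Iff.rfl

end node

end

end Pool.Agent.V7H36.LR
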