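import Pool.Agent.V7H36.LR.Mid

/-!
# Homogeneous sequences: covers for short and for very long sequences
-/

set_option autoImplicit false

namespace Pool.Agent.V7H36.LR

open Finset

section
variable {W X Y : Type} [Monoid W] {T : ℕ → X → Y → W}

/-- the trivial bound -/
theorem small_cov [Fintype W] {c : ℕ} (hc : ∀ j z, Cov c (fun x y => T j x y = z)) (n : ℕ) :
    ∀ (a : ℕ) (z : W), Cov ((Fintype.card W ^ 2 * c) ^ n) (fun x y => TT T a (a + n) x y = z) := by
  induction n with
  | zero =>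
    intro a z
    refine (Cov.const (1 = z)).congr (fun x y => ?_)
    simp [TT, iv_self]
  | succ n ih =>
    intro a z
    have h1 : Cov ((Fintype.card W ^ 2 * c) ^ (n + 1)) (fun x y => ∃ i : W × W, i.1 * i.2 = z ∧
        (TT T a (a + n) x y = i.1 ∧ T (a + n) (x (a + n)) (y (a + n)) = i.2)) := by
      refine iUnion_le (N := (Fintype.card W ^ 2 * c) ^ n * c) (fun i => ?_) ?_
      · refine Cov.guard' (fun _ => (ih a i.1).and ?_)
        exact (hc (a + n) i.2).lift (fun x : ℕ → X => x (a + n)) (fun y : ℕ → Y => y (a + n))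
      · rw [Fintype.card_prod, pow_succ]
        apply le_of_eq
        ring
    refine h1.congr (fun x y => ?_)
    have e1 : TT T a (a + (n + 1)) x y = TT T a (a + n) x y *
        T (a + n) (x (a + n)) (y (a + n)) :=
      iv_right (fun l => T l (x l) (y l)) (Nat.le_add_right a n)
    constructor
    · intro hz
      exact ⟨(TT T a (a + n) x y, T (a + n) (x (a + n)) (y (a + n))), by rw [← hz, e1],
        rfl, rfl⟩
    · rintro ⟨i, h1, h2, h3⟩
      rw [e1, h2, h3, h1]

theorem Homog.place (h : Homog T) {e : W} (he : e * e = e) (he1 : e ≠ 1) :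
    ∃ (x : ℕ → X) (y : ℕ → Y), ∀ a b, a < b → TT T a b x y = e := by
  obtain ⟨x, y, hxy⟩ := h.value he1
  have h1 : ∀ l, ∃ x' y', T l x' y' = e := by
    intro l
    obtain ⟨xs, ys, h2⟩ := h.hT 0 l (fun _ => x) (fun _ => y)
    exact ⟨xs 0, ys 0, by rw [h2, hxy]⟩
  choose x' y' h2 using h1
  refine ⟨x', y', fun a b hab => ?_⟩
  unfold TT
  rw [iv_congr (d' := fun _ => e) (fun l _ _ => h2 l)]
  exact iv_const e he hab

/-- **difference lemma**: in a very long sequence only a bounded amount of information about `x`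
matters between two idempotents -/
theorem big_const [Fintype W] (h : Homog T) {k R : ℕ} (hR : RankHyp T k R) (hk : 2 * R + 2 < k)
    {a b : ℕ} (hab : a < b) {e f : W} (he : e * e = e) (hf : f * f = f)
    {x x' xe xf : ℕ → X} {y ye yf : ℕ → Y} (h1 : TT T a b xe ye = e) (h2 : TT T a b xf yf = f)
    (h3 : TT T a b x ye = TT T a b x' ye) (h4 : TT T a b x yf = TT T a b x' yf) :
    e * TT T a b x y * f = e * TT T a b x' y * f := by
  classical
  by_contra hne
  have hreal := fun j => h.pat hab ![x, x', xe, xf] ![y, ye, yf, y] j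
  choose XX YY hXY using hreal
  set ζ := e * TT T a b x y * f with hζ
  let A : ℕ → ℕ → X := fun p l => if l < p then XX l 2 else if l = p then XX l 0 else XX l 3
  let A' : ℕ → ℕ → X := fun p l => if l < p then XX l 2 else if l = p then XX l 1 else XX l 3
  let B : ℕ → ℕ → Y := fun p l => if l < p then YY l 1 else if l = p then YY l 0 else YY l 2
  have hrl : RL ℝ (R + R) (fun (a : (ℕ → X) × (ℕ → X)) (b : ℕ → Y) =>
      ind ℝ (TT T 0 k a.1 b = ζ) - ind ℝ (TT T 0 k a.2 b = ζ)) :=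
    ((hR ζ).lift Prod.fst id).sub ((hR ζ).lift Prod.snd id)
  have hcard := hrl.card_le_of_id (ι := Fin (k - 2)) (fun i => (A (i.1 + 1), A' (i.1 + 1)))
    (fun i => B (i.1 + 1)) ?_
  · rw [Fintype.card_fin] at hcard
    omega
  have diag : ∀ (p : ℕ) (t : W) (x0 : ℕ → X), 0 < p → p + 1 < k → T p (x0 p) (B p p) = t →
      (∀ l, l ≠ p → x0 l = A p l) → TT T 0 k x0 (B p) = e * t * f := by
    intro p t x0 hp hpk ht hx0
    unfold TT
    rw [← iv_mul _ (Nat.zero_le p) (by omega), iv_left _ (by omega : p < k)]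
    have e1 : iv (fun l => T l (x0 l) (B p l)) 0 p = e := by
      rw [iv_congr (d' := fun _ => e) (fun l _ hl => ?_)]
      · exact iv_const e he hp
      · rw [hx0 l (by omega)]
        simp only [A, B, if_pos hl]
        rw [hXY]
        simpa using h1
    have e2 : iv (fun l => T l (x0 l) (B p l)) (p + 1) k = f := by
      rw [iv_congr (d' := fun _ => f) (fun l hl _ => ?_)]
      · exact iv_const f hf hpk
      · rw [hx0 l (by omega)]
        simp only [A, B, if_neg (by omega : ¬ l < p), if_neg (by omega : ¬ l = p)]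
        rw [hXY]
        simpa using h2
    rw [e1, e2, ht, mul_assoc]
  intro i j
  by_cases hij : i = j
  · subst hij
    rw [if_pos rfl]
    have hi := i.2
    have d1 := diag (i.1 + 1) (TT T a b x y) (A (i.1 + 1)) (by omega) (by omega) (by
      simp only [A, B, lt_irrefl, if_false, if_true]
      rw [hXY]
      simp) (fun l _ => rfl)
    have d2 := diag (i.1 + 1) (TT T a b x' y) (A' (i.1 + 1)) (by omega) (by omega) (by
      simp only [A', B, lt_irrefl, if_false, if_true]
      rw [hXY]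
      simp) (fun l hl => by simp only [A, A', if_neg hl])
    simp only
    rw [d1, d2, ind_true rfl, ind_false (Ne.symm hne), sub_zero]
  · rw [if_neg hij]
    have : TT T 0 k (A (i.1 + 1)) (B (j.1 + 1)) = TT T 0 k (A' (i.1 + 1)) (B (j.1 + 1)) := by
      unfold TT
      refine iv_congr (fun l _ _ => ?_)
      by_cases hl : l = i.1 + 1
      · subst hl
        have hij' : i.1 ≠ j.1 := fun hh => hij (Fin.ext hh)
        simp only [A, A', B, lt_irrefl, if_false, if_true]
        by_cases hlt : i.1 + 1 < j.1 + 1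
        · rw [if_pos hlt, hXY, hXY]
          simpa using h3
        · rw [if_neg hlt, if_neg (by omega), hXY, hXY]
          simpa using h4
      · simp only [A, A', if_neg hl]
    simp only
    rw [this, sub_self]

theorem big_cov [Fintype W] (h : Homog T) {k R : ℕ} (hR : RankHyp T k R) (hk : 2 * R + 2 < k)
    {a b : ℕ} (hab : a < b) {e f : W} (he : e * e = e) (hf : f * f = f) (he1 : e ≠ 1)
    (hf1 : f ≠ 1) {m n z : W} (hm : m * e = m) (hn : f * n = n) :
    Cov (Fintype.card W ^ 2) (fun x y => m * TT T a b x y * n = z) := by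
  classical
  obtain ⟨xe, ye, hxe⟩ := h.place he he1
  obtain ⟨xf, yf, hxf⟩ := h.place hf hf1
  let rep : W × W → (ℕ → X) := fun w =>
    if hw : ∃ x, TT T a b x ye = w.1 ∧ TT T a b x yf = w.2 then hw.choose else xe
  have hrep : ∀ w : W × W, (∃ x, TT T a b x ye = w.1 ∧ TT T a b x yf = w.2) →
      TT T a b (rep w) ye = w.1 ∧ TT T a b (rep w) yf = w.2 := by
    intro w hw
    have : rep w = hw.choose := dif_pos hw
    rw [this]
    exact hw.choose_spec
  have hmn : ∀ t, m * t * n = m * (e * t * f) * n := by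
    intro t
    calc m * t * n = (m * e) * t * (f * n) := by rw [hm, hn]
      _ = m * (e * t * f) * n := by simp only [mul_assoc]
  refine Cov.of_fintype (W × W) (by rw [Fintype.card_prod, sq])
    (fun w x => TT T a b x ye = w.1 ∧ TT T a b x yf = w.2)
    (fun w y => m * TT T a b (rep w) y * n = z) (fun x y => ?_)
  have key : ∀ w : W × W, TT T a b x ye = w.1 → TT T a b x yf = w.2 →
      m * TT T a b x y * n = m * TT T a b (rep w) y * n := by
    intro w hw1 hw2
    obtain ⟨h5, h6⟩ := hrep w ⟨x, hw1, hw2⟩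
    rw [hmn, hmn (TT T a b (rep w) y)]
    rw [big_const h hR hk hab he hf (hxe a b hab) (hxf a b hab) (hw1.trans h5.symm)
      (hw2.trans h6.symm)]
  constructor
  · intro hz
    exact ⟨(_, _), ⟨rfl, rfl⟩, by rw [← key _ rfl rfl, hz]⟩
  · rintro ⟨w, ⟨h5, h6⟩, h7⟩
    rw [key w h5 h6, h7]

theorem Homog.pow_ne_one (h : Homog T) {t : W} (ht : t ≠ 1) {N : ℕ} (hN : 0 < N) : t ^ N ≠ 1 := by
  obtain ⟨n, rfl⟩ : ∃ n, N = n + 1 := ⟨N - 1, by omega⟩
  rw [pow_succ]
  exact h.mul_ne_one_right ht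

/-- very long sequences -/
theorem big_main [Fintype W] (h : Homog T) {k R c : ℕ} (hc0 : 0 < c)
    (hR : RankHyp T k R) (hk : 2 * R + 2 < k) (hkL : 2 * Fintype.card W < k)
    (hc : ∀ j z, Cov c (fun x y => T j x y = z)) (z : W) :
    Cov ((Fintype.card W + 1) ^ 2 * Fintype.card W ^ 6 *
      (Fintype.card W ^ 2 * c) ^ (2 * Fintype.card W)) (fun x y => TT T 0 k x y = z) := by
  classical
  have : Nonempty W := ⟨1⟩
  have hcard : 0 < Fintype.card W := Fintype.card_pos
  set L := Fintype.card W with hL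
  have hbase : 1 ≤ L ^ 2 * c := Nat.mul_pos (by positivity) hc0
  have C : Cov ((L + 1) * ((L + 1) * (L * (L * (L * L)))) *
      ((L ^ 2 * c) ^ L * ((L ^ 2 * c) ^ L * L ^ 2)))
      (fun x y => ∃ i : Fin (L + 1) × Fin (L + 1) × W × W × W × W,
        (i.1.1 < k - i.2.1.1 ∧ i.2.2.1 * i.2.2.2.1 = i.2.2.1 ∧
          i.2.2.2.2.1 * i.2.2.2.2.2 = i.2.2.2.2.2 ∧ i.2.2.2.1 * i.2.2.2.1 = i.2.2.2.1 ∧
          i.2.2.2.2.1 * i.2.2.2.2.1 = i.2.2.2.2.1 ∧ i.2.2.2.1 ≠ 1 ∧ i.2.2.2.2.1 ≠ 1) ∧
        (TT T 0 i.1.1 x y = i.2.2.1 ∧ (TT T (k - i.2.1.1) k x y = i.2.2.2.2.2 ∧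
          i.2.2.1 * TT T i.1.1 (k - i.2.1.1) x y * i.2.2.2.2.2 = z))) := by
    refine iUnion_le (N := (L ^ 2 * c) ^ L * ((L ^ 2 * c) ^ L * L ^ 2)) (fun i => ?_) (by simp [hL])
    refine Cov.guard' (fun hg => ?_)
    obtain ⟨g1, g2, g3, g4, g5, g6, g7⟩ := hg
    refine Cov.and ?_ (Cov.and ?_ ?_)
    · have h1 := small_cov hc i.1.1 0 i.2.2.1
      rw [zero_add] at h1
      exact h1.mono (Nat.pow_le_pow_right hbase (by omega))
    · have h1 := small_cov hc i.2.1.1 (k - i.2.1.1) i.2.2.2.2.2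
      rw [show k - i.2.1.1 + i.2.1.1 = k by omega] at h1
      exact h1.mono (Nat.pow_le_pow_right hbase (by omega))
    · exact big_cov h hR hk g1 g4 g5 g6 g7 g2 g3
  refine (C.mono (le_of_eq ?_)).congr (fun x y => ?_)
  · ring
  · constructor
    · intro hz
      obtain ⟨i, j, hij, hj, hpre⟩ := exists_prefix (fun l => T l (x l) (y l)) 0
      obtain ⟨i', j', hij', hj', hsuf⟩ := exists_suffix (fun l => T l (x l) (y l)) k
      rw [zero_add, zero_add] at hpre
      rw [← hL] at hj hj'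
      have ht : TT T i j x y ≠ 1 := h.val_ne_one hij x y
      have ht' : TT T (k - j') (k - i') x y ≠ 1 := h.val_ne_one (by omega) x y
      obtain ⟨N, hN, hNi⟩ := exists_pow_idem (TT T i j x y)
      obtain ⟨N', hN', hNi'⟩ := exists_pow_idem (TT T (k - j') (k - i') x y)
      have hm : TT T 0 i x y * TT T i j x y = TT T 0 i x y := by
        unfold TT
        rw [iv_mul _ (Nat.zero_le _) hij.le]
        exact hpre.symm
      have hn : TT T (k - j') (k - i') x y * TT T (k - i') k x y = TT T (k - i') k x y := by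
        unfold TT
        rw [iv_mul _ (by omega) (by omega)]
        exact hsuf.symm
      have hmN : ∀ n, TT T 0 i x y * TT T i j x y ^ n = TT T 0 i x y := by
        intro n
        induction n with
        | zero => simp
        | succ n ih => rw [pow_succ', ← mul_assoc, hm, ih]
      have hnN : ∀ n, TT T (k - j') (k - i') x y ^ n * TT T (k - i') k x y =
          TT T (k - i') k x y := by
        intro n
        induction n with
        | zero => simp
        | succ n ih => rw [pow_succ, mul_assoc, hn, ih]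
      refine ⟨(⟨i, by omega⟩, ⟨i', by omega⟩, TT T 0 i x y, TT T i j x y ^ N,
        TT T (k - j') (k - i') x y ^ N', TT T (k - i') k x y),
        ⟨by simp only; omega, hmN N, hnN N', hNi, hNi', h.pow_ne_one ht hN, h.pow_ne_one ht' hN'⟩,
        rfl, rfl, ?_⟩
      simp only
      unfold TT
      rw [iv_mul _ (Nat.zero_le _) (by omega), iv_mul _ (by omega) (by omega)]
      exact hz
    · rintro ⟨i, ⟨g1, _⟩, h1, h2, h3⟩
      rw [← h3, ← h1, ← h2]
      unfold TT
      rw [iv_mul _ (Nat.zero_le _) (by omega), iv_mul _ (by omega) (by omega)]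

/-- exponent of the cover of a homogeneous sequence -/
def nodeLog (w ρ t : ℕ) : ℕ := (7 * w + 2 * ρ + 2 * t + 8) * (w + ρ + 1) * 2 ^ (2 ^ w + w + 2)

/-- **covers of homogeneous sequences** -/
theorem node_cov [Fintype W] (h : Homog T) {k w ρ t : ℕ} (hk0 : 0 < k)
    (hw : Fintype.card W ≤ 2 ^ w) (hR : RankHyp T k (2 ^ ρ))
    (hc : ∀ j z, Cov (2 ^ t) (fun x y => T j x y = z)) (z : W) :
    Cov (2 ^ nodeLog w ρ t) (fun x y => TT T 0 k x y = z) := by
  classical
  have : Nonempty W := ⟨1⟩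
  have hcard : 0 < Fintype.card W := Fintype.card_pos
  have hP1 : 1 ≤ 2 ^ (2 ^ w + w + 2) := Nat.one_le_two_pow
  by_cases hs : k ≤ w + ρ
  · have h1 := small_cov hc k 0 z
    rw [zero_add] at h1
    refine h1.mono ?_
    calc (Fintype.card W ^ 2 * 2 ^ t) ^ k ≤ ((2 ^ w) ^ 2 * 2 ^ t) ^ k := by gcongr
      _ = 2 ^ ((2 * w + t) * k) := by rw [← pow_mul, ← pow_add, ← pow_mul]; ring_nf
      _ ≤ 2 ^ nodeLog w ρ t := by
        apply Nat.pow_le_pow_right (by norm_num)
        unfold nodeLog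
        calc (2 * w + t) * k ≤ (7 * w + 2 * ρ + 2 * t + 8) * (w + ρ + 1) * 1 := by
              rw [mul_one]
              exact Nat.mul_le_mul (by omega) (by omega)
          _ ≤ _ := by gcongr
  have hlong : Fintype.card W * 2 ^ ρ < 2 ^ k := by
    calc Fintype.card W * 2 ^ ρ ≤ 2 ^ w * 2 ^ ρ := by gcongr
      _ = 2 ^ (w + ρ) := by rw [pow_add]
      _ < 2 ^ k := Nat.pow_lt_pow_right (by norm_num) (by omega)
  by_cases hmid : k ≤ 2 ^ (ρ + w + 3)
  · have h1 := mid_main h hk0 (by positivity) hR hlong hc (Fintype.card W) z (up_le z) 0 k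
      (Nat.zero_le _) le_rfl
    refine h1.mono ?_
    calc (2 * (k ^ 2 * Fintype.card W ^ 5 * (2 ^ t) ^ 2)) ^ (2 ^ Fintype.card W - 1)
        ≤ (2 * ((2 ^ (ρ + w + 3)) ^ 2 * (2 ^ w) ^ 5 * (2 ^ t) ^ 2)) ^ (2 ^ Fintype.card W - 1) := by
          gcongr
      _ ≤ (2 * ((2 ^ (ρ + w + 3)) ^ 2 * (2 ^ w) ^ 5 * (2 ^ t) ^ 2)) ^ (2 ^ (2 ^ w)) := by
          apply Nat.pow_le_pow_right (by positivity)
          calc 2 ^ Fintype.card W - 1 ≤ 2 ^ Fintype.card W := Nat.sub_le _ _
            _ ≤ 2 ^ (2 ^ w) := Nat.pow_le_pow_right (by norm_num) hw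
      _ = 2 ^ ((7 + 2 * ρ + 7 * w + 2 * t) * 2 ^ (2 ^ w)) := by
          rw [pow_mul]
          congr 1
          rw [← pow_mul, ← pow_mul, ← pow_mul, ← pow_add, ← pow_add, ← pow_succ']
          congr 1
          ring
      _ ≤ 2 ^ nodeLog w ρ t := by
        apply Nat.pow_le_pow_right (by norm_num)
        unfold nodeLog
        calc (7 + 2 * ρ + 7 * w + 2 * t) * 2 ^ (2 ^ w)
            ≤ (7 * w + 2 * ρ + 2 * t + 8) * (w + ρ + 1) * 2 ^ (2 ^ w) := by
              apply Nat.mul_le_mul_right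
              calc 7 + 2 * ρ + 7 * w + 2 * t ≤ (7 * w + 2 * ρ + 2 * t + 8) * 1 := by omega
                _ ≤ _ := Nat.mul_le_mul_left _ (by omega)
          _ ≤ _ := by
              apply Nat.mul_le_mul_left
              exact Nat.pow_le_pow_right (by norm_num) (by omega)
  push Not at hmid
  have hR2 : 2 * 2 ^ ρ + 2 < k := by
    calc 2 * 2 ^ ρ + 2 ≤ 2 * 2 ^ ρ + 2 * 2 ^ ρ := by
          have : 1 ≤ 2 ^ ρ := Nat.one_le_two_pow
          omega
      _ = 2 ^ (ρ + 2) := by rw [pow_add]; ring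
      _ ≤ 2 ^ (ρ + w + 3) := Nat.pow_le_pow_right (by norm_num) (by omega)
      _ < k := hmid
  have hL2 : 2 * Fintype.card W < k := by
    calc 2 * Fintype.card W ≤ 2 * 2 ^ w := by omega
      _ = 2 ^ (w + 1) := by rw [pow_succ]; ring
      _ ≤ 2 ^ (ρ + w + 3) := Nat.pow_le_pow_right (by norm_num) (by omega)
      _ < k := hmid
  have h1 := big_main h (by positivity) hR hR2 hL2 hc z
  refine h1.mono ?_
  calc (Fintype.card W + 1) ^ 2 * Fintype.card W ^ 6 *
      (Fintype.card W ^ 2 * 2 ^ t) ^ (2 * Fintype.card W)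
      ≤ (2 ^ (w + 1)) ^ 2 * (2 ^ w) ^ 6 * ((2 ^ w) ^ 2 * 2 ^ t) ^ (2 * 2 ^ w) := by
        have e1 : Fintype.card W + 1 ≤ 2 ^ (w + 1) := by
          rw [pow_succ]
          omega
        have e2 : (Fintype.card W ^ 2 * 2 ^ t) ^ (2 * Fintype.card W) ≤
            ((2 ^ w) ^ 2 * 2 ^ t) ^ (2 * 2 ^ w) := by
          calc (Fintype.card W ^ 2 * 2 ^ t) ^ (2 * Fintype.card W)
              ≤ ((2 ^ w) ^ 2 * 2 ^ t) ^ (2 * Fintype.card W) := by gcongr
            _ ≤ _ := Nat.pow_le_pow_right (by positivity) (by omega)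
        gcongr
    _ = 2 ^ (8 * w + 2 + (2 * w + t) * (2 * 2 ^ w)) := by
        rw [← pow_mul, ← pow_mul, ← pow_mul, ← pow_add, ← pow_add, ← pow_mul, ← pow_add]
        congr 1
        ring
    _ ≤ 2 ^ nodeLog w ρ t := by
      apply Nat.pow_le_pow_right (by norm_num)
      unfold nodeLog
      have hp : 1 ≤ 2 ^ w := Nat.one_le_two_pow
      calc 8 * w + 2 + (2 * w + t) * (2 * 2 ^ w)
          ≤ (8 * w + 2) * 2 ^ w + (2 * w + t) * (2 * 2 ^ w) := by nlinarith
        _ = (12 * w + 2 * t + 2) * 2 ^ w := by ring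
        _ ≤ (7 * w + 2 * ρ + 2 * t + 8) * (4 * 2 ^ w) := by nlinarith
        _ = (7 * w + 2 * ρ + 2 * t + 8) * 1 * 2 ^ (w + 2) := by rw [pow_add]; ring
        _ ≤ (7 * w + 2 * ρ + 2 * t + 8) * (w + ρ + 1) * 2 ^ (2 ^ w + w + 2) := by
            gcongr
            · omega
            · norm_num
            · omega

end

end Pool.Agent.V7H36.LR
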