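import Pool.Agent.TH744.LR.Prot

/-!
# Covers by rectangles and the theorem of Aho, Ullman and Yannakakis
-/

set_option autoImplicit false

namespace Pool.Agent.V7H36.LR

open Pool.Agent.TH744.LR

/-- the set `S` is a union of `N` rectangles -/
def Cov {A B : Type} (N : ℕ) (S : A → B → Prop) : Prop :=
  ∃ (P : Fin N → A → Prop) (Q : Fin N → B → Prop), ∀ a b, S a b ↔ ∃ i, P i a ∧ Q i b

section
variable {A B A' B' : Type}

theorem Cov.of_fintype {S : A → B → Prop} (ι : Type) [Fintype ι] {N : ℕ}
    (hN : Fintype.card ι ≤ N) (P : ι → A → Prop) (Q : ι → B → Prop)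
    (h : ∀ a b, S a b ↔ ∃ i, P i a ∧ Q i b) : Cov N S := by
  classical
  let e := Fintype.equivFin ι
  refine ⟨fun j a => ∃ h : j.1 < Fintype.card ι, P (e.symm ⟨j.1, h⟩) a,
    fun j b => ∃ h : j.1 < Fintype.card ι, Q (e.symm ⟨j.1, h⟩) b, fun a b => ?_⟩
  rw [h]
  constructor
  · rintro ⟨i, hp, hq⟩
    have hlt : (e i).1 < Fintype.card ι := (e i).2
    refine ⟨⟨(e i).1, lt_of_lt_of_le hlt hN⟩, ⟨hlt, ?_⟩, ⟨hlt, ?_⟩⟩
    · simpa using hp
    · simpa using hq
  · rintro ⟨j, ⟨hj, hp⟩, ⟨_, hq⟩⟩
    exact ⟨_, hp, hq⟩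

theorem Cov.congr {S S' : A → B → Prop} {N : ℕ} (h : Cov N S) (hS : ∀ a b, S' a b ↔ S a b) :
    Cov N S' := by
  obtain ⟨P, Q, h⟩ := h
  exact ⟨P, Q, fun a b => (hS a b).trans (h a b)⟩

theorem Cov.mono {S : A → B → Prop} {N N' : ℕ} (h : Cov N S) (hN : N ≤ N') : Cov N' S := by
  obtain ⟨P, Q, h⟩ := h
  exact Cov.of_fintype (Fin N) (by simpa using hN) P Q h

theorem Cov.rect (P : A → Prop) (Q : B → Prop) : Cov 1 (fun a b => P a ∧ Q b) :=
  ⟨fun _ => P, fun _ => Q, fun a b => by simp⟩

theorem Cov.const (p : Prop) : Cov 1 (fun (_ : A) (_ : B) => p) :=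
  (Cov.rect (A := A) (B := B) (fun _ => p) (fun _ => p)).congr (fun _ _ => by simp)

theorem Cov.lift {S : A → B → Prop} {N : ℕ} (h : Cov N S) (p : A' → A) (q : B' → B) :
    Cov N (fun a b => S (p a) (q b)) := by
  obtain ⟨P, Q, h⟩ := h
  exact ⟨fun i a => P i (p a), fun i b => Q i (q b), fun a b => h _ _⟩

theorem Cov.iUnion {ι : Type} [Fintype ι] {S : ι → A → B → Prop} {N : ℕ}
    (h : ∀ i, Cov N (S i)) : Cov (Fintype.card ι * N) (fun a b => ∃ i, S i a b) := by
  choose P Q h using h
  refine Cov.of_fintype (ι × Fin N) (by simp) (fun i a => P i.1 i.2 a) (fun i b => Q i.1 i.2 b)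
    (fun a b => ?_)
  constructor
  · rintro ⟨i, hi⟩
    obtain ⟨j, hj⟩ := (h i a b).1 hi
    exact ⟨(i, j), hj⟩
  · rintro ⟨⟨i, j⟩, hij⟩
    exact ⟨i, (h i a b).2 ⟨j, hij⟩⟩

theorem Cov.or {S S' : A → B → Prop} {N N' : ℕ} (h : Cov N S) (h' : Cov N' S') :
    Cov (N + N') (fun a b => S a b ∨ S' a b) := by
  obtain ⟨P, Q, h⟩ := h
  obtain ⟨P', Q', h'⟩ := h'
  refine Cov.of_fintype (Fin N ⊕ Fin N') (by simp) (Sum.elim P P') (Sum.elim Q Q')
    (fun a b => ?_)
  rw [h, h']
  constructor
  · rintro (⟨i, hi⟩ | ⟨i, hi⟩)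
    · exact ⟨Sum.inl i, hi⟩
    · exact ⟨Sum.inr i, hi⟩
  · rintro ⟨i | i, hi⟩
    · exact Or.inl ⟨i, hi⟩
    · exact Or.inr ⟨i, hi⟩

theorem Cov.and {S S' : A → B → Prop} {N N' : ℕ} (h : Cov N S) (h' : Cov N' S') :
    Cov (N * N') (fun a b => S a b ∧ S' a b) := by
  obtain ⟨P, Q, h⟩ := h
  obtain ⟨P', Q', h'⟩ := h'
  refine Cov.of_fintype (Fin N × Fin N') (by simp) (fun i a => P i.1 a ∧ P' i.2 a)
    (fun i b => Q i.1 b ∧ Q' i.2 b) (fun a b => ?_)
  rw [h, h']
  constructor
  · rintro ⟨⟨i, hi⟩, ⟨j, hj⟩⟩
    exact ⟨(i, j), ⟨hi.1, hj.1⟩, ⟨hi.2, hj.2⟩⟩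
  · rintro ⟨⟨i, j⟩, hp, hq⟩
    exact ⟨⟨i, hp.1, hq.1⟩, ⟨j, hp.2, hq.2⟩⟩

theorem Cov.guard {S : A → B → Prop} {N : ℕ} (h : Cov N S) (p : Prop) :
    Cov N (fun a b => p ∧ S a b) := by
  have := (Cov.const (A := A) (B := B) p).and h
  simpa using this

end

/-- Alice announces `k` bits, then the players go on -/
theorem announceA {X Y : Type} {b : ℕ} (k : ℕ) : ∀ (s : X → Fin k → Bool)
    (G : (Fin k → Bool) → X → Y → Bool) (_ : ∀ w, Prot (G w) b),
    Prot (fun x y => G (s x) x y) (k + b) := by
  induction k with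
  | zero =>
    intro s G h
    have : (fun (x : X) (y : Y) => G (s x) x y) = G (fun i => i.elim0) := by
      funext x y
      congr 1
      funext i
      exact i.elim0
    rw [this]
    simpa using h _
  | succ k ih =>
    intro s G h
    have h2 := Prot.bind (Prot.alice (Y := Y) (fun x : X => s x 0))
      (F := fun v x y => G (Fin.cons v (fun i => s x i.succ)) x y) (b := k + b)
      (fun v => ih (fun x i => s x i.succ) (fun w => G (Fin.cons v w)) (fun w => h _))
    have e1 : (fun (x : X) (y : Y) => G (Fin.cons (s x 0) (fun i => s x i.succ)) x y) =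
        fun x y => G (s x) x y := by
      funext x y
      congr 1
      funext i
      refine Fin.cases ?_ (fun j => ?_) i <;> simp
    rw [e1] at h2
    rwa [show 1 + (k + b) = k + 1 + b by ring] at h2

theorem announceB {X Y : Type} {b : ℕ} (k : ℕ) (s : Y → Fin k → Bool)
    (G : (Fin k → Bool) → X → Y → Bool) (h : ∀ w, Prot (G w) b) :
    Prot (fun x y => G (s y) x y) (k + b) :=
  (announceA k s (fun w y x => G w x y) (fun w => (h w).swap)).swap

/-- an index in `Fin (2 ^ k)` can be announced with `k` bits -/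
theorem announceIdxA {X Y : Type} {b : ℕ} (k : ℕ) (s : X → Fin (2 ^ k))
    (G : Fin (2 ^ k) → X → Y → Bool) (h : ∀ w, Prot (G w) b) :
    Prot (fun x y => G (s x) x y) (k + b) := by
  have e : Fin (2 ^ k) ≃ (Fin k → Bool) := Fintype.equivOfCardEq (by simp)
  have := announceA k (fun x => e (s x)) (fun w => G (e.symm w)) (fun w => h _)
  simpa using this

theorem announceIdxB {X Y : Type} {b : ℕ} (k : ℕ) (s : Y → Fin (2 ^ k))
    (G : Fin (2 ^ k) → X → Y → Bool) (h : ∀ w, Prot (G w) b) :
    Prot (fun x y => G (s y) x y) (k + b) := by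
  have e : Fin (2 ^ k) ≃ (Fin k → Bool) := Fintype.equivOfCardEq (by simp)
  have := announceB k (fun x => e (s x)) (fun w => G (e.symm w)) (fun w => h _)
  simpa using this

/-- **Aho, Ullman, Yannakakis**: covers of the ones and of the zeros give a protocol. -/
theorem auy {X Y : Type} (F : X → Y → Bool) {k1 k0 : ℕ}
    (h1 : Cov (2 ^ k1) (fun x y => F x y = true)) (h0 : Cov (2 ^ k0) (fun x y => F x y = false)) :
    Prot F ((k0 + 1) * (2 * k1 + 2)) := by
  classical
  obtain ⟨A, B, h1⟩ := h1
  obtain ⟨C, D, h0⟩ := h0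
  have key : ∀ (m : ℕ) (S : Finset (Fin (2 ^ k0))), S.card < 2 ^ m →
      ∃ G : X → Y → Bool, Prot G (m * (2 * k1 + 2)) ∧
        ∀ x y, (∀ j, C j x → D j y → j ∈ S) → G x y = F x y := by
    intro m
    induction m with
    | zero =>
      intro S hS
      have hS0 : S = ∅ := by
        rw [pow_zero] at hS
        exact Finset.card_eq_zero.1 (by omega)
      refine ⟨fun _ _ => true, by simpa using Prot.const true, fun x y h => ?_⟩
      by_contra hne
      have hF : F x y = false := by
        cases hh : F x y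
        · rfl
        · exact absurd hh.symm hne
      obtain ⟨j, hj⟩ := (h0 x y).1 hF
      have := h j hj.1 hj.2
      rw [hS0] at this
      simp at this
    | succ m ih =>
      intro S hS
      set SA : Fin (2 ^ k1) → Finset (Fin (2 ^ k0)) := fun i =>
        S.filter (fun j => ∃ x, A i x ∧ C j x) with hSA
      set SB : Fin (2 ^ k1) → Finset (Fin (2 ^ k0)) := fun i =>
        S.filter (fun j => ∃ y, B i y ∧ D j y) with hSB
      have hdisj : ∀ i, Disjoint (SA i) (SB i) := by
        intro i
        rw [Finset.disjoint_left]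
        intro j hjA hjB
        simp only [hSA, hSB, Finset.mem_filter] at hjA hjB
        obtain ⟨x, hx1, hx2⟩ := hjA.2
        obtain ⟨y, hy1, hy2⟩ := hjB.2
        have e1 : F x y = true := (h1 x y).2 ⟨i, hx1, hy1⟩
        have e0 : F x y = false := (h0 x y).2 ⟨j, hx2, hy2⟩
        rw [e1] at e0
        exact absurd e0 (by simp)
      have hgood : ∀ i, (SA i).card < 2 ^ m ∨ (SB i).card < 2 ^ m := by
        intro i
        have h3 : (SA i ∪ SB i).card = (SA i).card + (SB i).card :=
          Finset.card_union_of_disjoint (hdisj i)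
        have h4 : (SA i ∪ SB i).card ≤ S.card :=
          Finset.card_le_card (Finset.union_subset (Finset.filter_subset _ _)
            (Finset.filter_subset _ _))
        rw [pow_succ] at hS
        omega
      have exA : ∀ i, ∃ G : X → Y → Bool, Prot G (m * (2 * k1 + 2)) ∧ ((SA i).card < 2 ^ m →
          ∀ x y, (∀ j, C j x → D j y → j ∈ SA i) → G x y = F x y) := by
        intro i
        by_cases hi : (SA i).card < 2 ^ m
        · obtain ⟨G, hG, hG2⟩ := ih (SA i) hi
          exact ⟨G, hG, fun _ => hG2⟩
        · exact ⟨fun _ _ => true, (Prot.const true).mono (Nat.zero_le _), fun h => absurd h hi⟩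
      have exB : ∀ i, ∃ G : X → Y → Bool, Prot G (m * (2 * k1 + 2)) ∧ ((SB i).card < 2 ^ m →
          ∀ x y, (∀ j, C j x → D j y → j ∈ SB i) → G x y = F x y) := by
        intro i
        by_cases hi : (SB i).card < 2 ^ m
        · obtain ⟨G, hG, hG2⟩ := ih (SB i) hi
          exact ⟨G, hG, fun _ => hG2⟩
        · exact ⟨fun _ _ => true, (Prot.const true).mono (Nat.zero_le _), fun h => absurd h hi⟩
      choose GA hGA hGA2 using exA
      choose GB hGB hGB2 using exB
      let okA : X → Prop := fun x => ∃ i, A i x ∧ (SA i).card < 2 ^ m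
      let okB : Y → Prop := fun y => ∃ i, B i y ∧ (SB i).card < 2 ^ m
      let iA : X → Fin (2 ^ k1) := fun x => if h : okA x then h.choose else ⟨0, by positivity⟩
      let iB : Y → Fin (2 ^ k1) := fun y => if h : okB y then h.choose else ⟨0, by positivity⟩
      have pB : Prot (fun x y => if decide (okB y) then GB (iB y) x y else false)
          (1 + (k1 + m * (2 * k1 + 2))) := by
        have := Prot.bind (Prot.bob (X := X) (fun y => decide (okB y)))
          (F := fun v x y => if v then GB (iB y) x y else false) (b := k1 + m * (2 * k1 + 2))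
          (fun v => by
            cases v
            · simpa using (Prot.const (X := X) (Y := Y) false).mono (Nat.zero_le _)
            · simpa using announceIdxB k1 iB GB hGB)
        exact this
      have pA : Prot (fun x y => if decide (okA x) then GA (iA x) x y else
          (if decide (okB y) then GB (iB y) x y else false))
          (1 + (k1 + (1 + (k1 + m * (2 * k1 + 2))))) := by
        have := Prot.bind (Prot.alice (Y := Y) (fun x : X => decide (okA x)))
          (F := fun v x y => if v then GA (iA x) x y else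
            (if decide (okB y) then GB (iB y) x y else false))
          (b := k1 + (1 + (k1 + m * (2 * k1 + 2))))
          (fun v => by
            cases v
            · simpa using pB.mono (by omega)
            · simpa using (announceIdxA k1 iA GA hGA).mono (by omega))
        exact this
      refine ⟨_, pA.mono (by ring_nf; omega), fun x y hxy => ?_⟩
      by_cases hA : okA x
      · have hspec := hA.choose_spec
        have hi : iA x = hA.choose := by simp only [iA, dif_pos hA]
        simp only [hA, decide_true, if_true, hi]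
        refine hGA2 _ hspec.2 x y (fun j hj1 hj2 => ?_)
        simp only [hSA, Finset.mem_filter]
        exact ⟨hxy j hj1 hj2, x, hspec.1, hj1⟩
      · by_cases hB : okB y
        · have hspec := hB.choose_spec
          have hi : iB y = hB.choose := by simp only [iB, dif_pos hB]
          simp only [hA, hB, decide_true, decide_false, if_true, hi, Bool.false_eq_true, if_false]
          refine hGB2 _ hspec.2 x y (fun j hj1 hj2 => ?_)
          simp only [hSB, Finset.mem_filter]
          exact ⟨hxy j hj1 hj2, y, hspec.1, hj2⟩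
        · simp only [hA, hB, decide_false, Bool.false_eq_true, if_false]
          by_contra hne
          have hF : F x y = true := by
            cases hh : F x y
            · exact absurd hh.symm hne
            · rfl
          obtain ⟨i, hi1, hi2⟩ := (h1 x y).1 hF
          rcases hgood i with hg | hg
          · exact hA ⟨i, hi1, hg⟩
          · exact hB ⟨i, hi2, hg⟩
  obtain ⟨G, hG, hG2⟩ := key (k0 + 1) Finset.univ (by
    rw [Finset.card_univ, Fintype.card_fin, pow_succ]
    have : 0 < 2 ^ k0 := by positivity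
    omega)
  have : G = F := by
    funext x y
    exact hG2 x y (fun j _ _ => Finset.mem_univ j)
  rw [this] at hG
  exact hG

/-- a protocol with `c` bits gives a cover by `2 ^ c` rectangles -/
theorem cov_of_prot {X Y : Type} {F : X → Y → Bool} {c : ℕ} (h : Prot F c) (v : Bool) :
    Cov (2 ^ c) (fun x y => F x y = v) := by
  classical
  obtain ⟨ow, a, b, out, h⟩ := h
  have key : ∀ n (w : Fin n → Bool), ∃ (P : X → Prop) (Q : Y → Prop), ∀ x y,
      Nat.iterate (pstep ow a b x y) n [] = List.ofFn w ↔ P x ∧ Q y := by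
    intro n
    induction n with
    | zero =>
      intro w
      exact ⟨fun _ => True, fun _ => True, fun x y => by simp⟩
    | succ n ih =>
      intro w
      obtain ⟨P, Q, hPQ⟩ := ih (fun i => w i.castSucc)
      refine ⟨fun x => P x ∧ (ow (List.ofFn (fun i : Fin n => w i.castSucc)) = true →
          a (List.ofFn (fun i : Fin n => w i.castSucc)) x = w (Fin.last n)),
        fun y => Q y ∧ (ow (List.ofFn (fun i : Fin n => w i.castSucc)) = false →
          b (List.ofFn (fun i : Fin n => w i.castSucc)) y = w (Fin.last n)), fun x y => ?_⟩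
      rw [Function.iterate_succ_apply']
      set U := Nat.iterate (pstep ow a b x y) n [] with hU
      have hofn : List.ofFn w = List.ofFn (fun i : Fin n => w i.castSucc) ++ [w (Fin.last n)] := by
        rw [List.ofFn_succ']
        simp
      rw [hofn]
      set w' := List.ofFn (fun i : Fin n => w i.castSucc) with hw'
      have e1 : pstep ow a b x y U = w' ++ [w (Fin.last n)] ↔
          U = w' ∧ (if ow U then a U x else b U y) = w (Fin.last n) := by
        simp only [pstep]
        constructor
        · intro h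
          have := List.append_inj' h rfl
          exact ⟨this.1, by simpa using this.2⟩
        · rintro ⟨h1, h2⟩
          rw [h2, h1]
      rw [e1, hPQ]
      constructor
      · rintro ⟨⟨hp, hq⟩, h2⟩
        have hUw : U = w' := (hPQ x y).2 ⟨hp, hq⟩
        rw [hUw] at h2
        refine ⟨⟨hp, fun ho => ?_⟩, ⟨hq, fun ho => ?_⟩⟩
        · simpa [ho] using h2
        · simpa [ho] using h2
      · rintro ⟨⟨hp, h3⟩, ⟨hq, h4⟩⟩
        have hUw : U = w' := (hPQ x y).2 ⟨hp, hq⟩
        refine ⟨⟨hp, hq⟩, ?_⟩
        rw [hUw]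
        cases ho : ow w'
        · simpa using h4 ho
        · simpa using h3 ho
  choose P Q hPQ using key c
  refine Cov.of_fintype {w : Fin c → Bool // out (List.ofFn w) = v} ?_ (fun w => P w.1)
    (fun w => Q w.1) (fun x y => ?_)
  · calc Fintype.card {w : Fin c → Bool // out (List.ofFn w) = v}
        ≤ Fintype.card (Fin c → Bool) := Fintype.card_subtype_le _
      _ = 2 ^ c := by simp
  · constructor
    · intro hF
      have hlen := pstep_len ow a b x y c
      set U := Nat.iterate (pstep ow a b x y) c [] with hU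
      refine ⟨⟨fun i => U.get (i.cast hlen.symm), ?_⟩, ?_⟩
      · have : List.ofFn (fun i : Fin c => U.get (i.cast hlen.symm)) = U := by
          apply List.ext_get
          · simp [hlen]
          · intro n h1 h2
            simp
        rw [this]
        rw [← hF]
        exact h x y
      · refine (hPQ _ x y).1 ?_
        rw [← hU]
        apply List.ext_get
        · simp [hlen]
        · intro n h1 h2
          simp
    · rintro ⟨⟨w, hw⟩, hp, hq⟩
      have := (hPQ w x y).2 ⟨hp, hq⟩
      rw [← h x y, this]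
      exact hw

end Pool.Agent.V7H36.LR
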