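import Pool.Agent.V7H36.LR.Tree

/-!
# From covers to protocols: the final bound
-/

set_option autoImplicit false

namespace Pool.Agent.V7H36.LR

open Pool.Agent.TH744.LR

/-- product of the values of the gadgets in the order of the indices -/
def product {M : Type} [Monoid M] {n : ℕ} {X Y : Fin n → Type} (g : ∀ i, X i → Y i → M)
    (x : ∀ i, X i) (y : ∀ i, Y i) : M :=
  (List.ofFn (fun i => g i (x i) (y i))).prod

theorem iv_eq_prod {M : Type} [Monoid M] (d : ℕ → M) (n : ℕ) :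
    iv d 0 n = (List.ofFn (fun i : Fin n => d i.1)).prod := by
  induction n with
  | zero => simp [iv_self]
  | succ n ih =>
    rw [iv_right _ (Nat.zero_le n), ih, List.ofFn_succ', List.prod_concat]
    simp

/-- the real communication matrix -/
noncomputable def cmat {X Y : Type} (F : X → Y → Bool) : Matrix X Y ℝ :=
  Matrix.of (fun (x : X) (y : Y) => if F x y then (1 : ℝ) else 0)

theorem rl_of_rank {X Y : Type} [Fintype X] [Fintype Y] (F : X → Y → Bool) :
    RL ℝ (cmat F).rank (fun x y => ind ℝ (F x y = true)) := by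
  refine (RL.of_rank (cmat F)).congr (fun x y => ?_)
  simp [cmat, ind]

theorem rank_le_of_rl {X Y : Type} [Fintype X] [Fintype Y] {F : X → Y → Bool} {r : ℕ}
    (h : RL ℝ r (fun x y => ind ℝ (F x y = true))) : (cmat F).rank ≤ r := by
  refine RL.rank_le (h.congr (fun x y => ?_))
  simp [cmat, ind]

/-- the constant -/
noncomputable def bigC (m d : ℕ) : ℕ :=
  2 * lvl (m + 1) ^ (2 * height m) * (m ^ 2 + 1) ^ (4 * height m + 2 * d)

/-- **main theorem**, natural number version: `lam ≥ log₂ rank` -/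
theorem final_nat {M : Type} [Fintype M] [Monoid M] (d K n : ℕ) (X Y : Fin n → Type)
    [∀ i, Fintype (X i)] [∀ i, Fintype (Y i)] (g : ∀ i, X i → Y i → M) (φ : M → Bool)
    (hg : ∀ i (Z : M → Bool) (lam : ℕ), (cmat (fun x y => Z (g i x y))).rank ≤ 2 ^ lam →
      Prot (fun x y => Z (g i x y)) (K * (lam + 1) ^ d)) :
    Prot (fun x y => φ (product g x y)) (bigC (Fintype.card M) d * (K + 1) ^ 2 *
      (Nat.log 2 (cmat (fun x y => φ (product g x y))).rank + 1) ^
        (4 * height (Fintype.card M) + 2 * d)) := by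
  classical
  by_cases hX : Nonempty (∀ i, X i)
  swap
  · have : (fun (x : ∀ i, X i) (y : ∀ i, Y i) => φ (product g x y)) = fun _ _ => true := by
      funext x
      exact absurd ⟨x⟩ hX
    rw [this]
    exact (Prot.const true).mono (Nat.zero_le _)
  by_cases hY : Nonempty (∀ i, Y i)
  swap
  · have : (fun (x : ∀ i, X i) (y : ∀ i, Y i) => φ (product g x y)) = fun _ _ => true := by
      funext x y
      exact absurd ⟨y⟩ hY
    rw [this]
    exact (Prot.const true).mono (Nat.zero_le _)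
  rcases Nat.eq_zero_or_pos n with rfl | hn
  · have : (fun (x : ∀ i, X i) (y : ∀ i, Y i) => φ (product g x y)) = fun _ _ => φ 1 := by
      funext x y
      simp [product]
    rw [this]
    exact (Prot.const (φ 1)).mono (Nat.zero_le _)
  set m := Fintype.card M with hm
  set F : (∀ i, X i) → (∀ i, Y i) → Bool := fun x y => φ (product g x y) with hF
  set r := (cmat F).rank with hr
  set ρ := m ^ 2 * (Nat.log 2 r + 1) with hρ
  set w := m + 1 with hw
  have hmw : m + 1 ≤ 2 ^ w := by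
    rw [hw]
    exact Nat.lt_two_pow_self.le
  have hrho : (r + 1) ^ (m ^ 2) ≤ 2 ^ ρ := by
    rw [hρ, mul_comm, pow_mul]
    exact Nat.pow_le_pow_left (Nat.lt_pow_succ_log_self (by norm_num) r) _
  let α := ∀ i, X i
  let β := ∀ i, Y i
  let gg : ℕ → α → β → M := fun l a b => if h : l < n then g ⟨l, h⟩ (a ⟨l, h⟩) (b ⟨l, h⟩) else 1
  have hval : ∀ (x : ℕ → α) (y : ℕ → β), TT gg 0 n x y =
      product g (fun i => x i.1 i) (fun i => y i.1 i) := by
    intro x y
    unfold TT product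
    rw [iv_eq_prod]
    congr 2
    funext i
    simp [gg]
  have hRL : RL ℝ r (fun (x : ℕ → α) (y : ℕ → β) => ind ℝ (φ (TT gg 0 n x y) = true)) := by
    refine ((rl_of_rank F).lift (fun (x : ℕ → α) (i : Fin n) => x i.1 i)
      (fun (y : ℕ → β) (i : Fin n) => y i.1 i)).congr (fun x y => ?_)
    rw [hval]
  obtain ⟨x0⟩ := hX
  obtain ⟨y0⟩ := hY
  have : Nonempty α := ⟨x0⟩
  have : Nonempty β := ⟨y0⟩
  set t := K * (ρ + 1) ^ d with ht
  have hleaf : ∀ i < n, Claim gg φ n t i (i + 1) := by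
    intro i hi m0 hm0
    set Z : M → Bool := fun a => decide (Eqv gg φ n i (i + 1) a m0) with hZ
    have hone : ∀ (x : ℕ → α) (y : ℕ → β), TT gg i (i + 1) x y =
        g ⟨i, hi⟩ (x i ⟨i, hi⟩) (y i ⟨i, hi⟩) := by
      intro x y
      unfold TT
      rw [iv_one]
      simp [gg, hi]
    have hrank : (cmat (fun x y => Z (g ⟨i, hi⟩ x y))).rank ≤ 2 ^ ρ := by
      refine (rank_le_of_rl (r := (r + 1) ^ (m ^ 2)) ?_).trans hrho
      have h1 := (rank_eqv hRL (Nat.le_succ i) (Nat.succ_le_of_lt hi) m0).lift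
        (fun (a : X ⟨i, hi⟩) (_ : ℕ) => Function.update x0 ⟨i, hi⟩ a)
        (fun (b : Y ⟨i, hi⟩) (_ : ℕ) => Function.update y0 ⟨i, hi⟩ b)
      refine h1.congr (fun a b => ?_)
      rw [Nat.succ_eq_add_one, hone]
      refine ind_congr ?_
      simp [hZ]
    have hprot := hg ⟨i, hi⟩ Z ρ hrank
    have hcov := (cov_of_prot hprot true).lift (fun (x : ℕ → α) => x i ⟨i, hi⟩)
      (fun (y : ℕ → β) => y i ⟨i, hi⟩)
    refine hcov.congr (fun x y => ?_)
    rw [hone]
    simp [hZ]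
  have h1 := main_cov hn hmw hrho hRL hleaf true
  have h0 := main_cov hn hmw hrho hRL hleaf false
  have e1 : ∀ (x : ∀ i, X i) (y : ∀ i, Y i), F x y = φ (TT gg 0 n (fun _ => x) (fun _ => y)) := by
    intro x y
    rw [hval]
  have h1' := (h1.lift (fun (x : ∀ i, X i) (_ : ℕ) => x) (fun (y : ∀ i, Y i) (_ : ℕ) => y)).congr
    (S' := fun x y => F x y = true) (fun x y => by rw [e1])
  have h0' := (h0.lift (fun (x : ∀ i, X i) (_ : ℕ) => x) (fun (y : ∀ i, Y i) (_ : ℕ) => y)).congr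
    (S' := fun x y => F x y = false) (fun x y => by rw [e1])
  have hfin := auy F h1' h0'
  refine hfin.mono ?_
  set H := height m with hH
  set T := treeLog w ρ t H with hT
  have hT1 : T + 1 ≤ (lvl w * (ρ + 1) ^ 2) ^ H * (t + 1) := treeLog_le w ρ t H
  have ht1 : t + 1 ≤ (K + 1) * (ρ + 1) ^ d := by
    rw [ht]
    have : 1 ≤ (ρ + 1) ^ d := Nat.one_le_pow _ _ (by omega)
    nlinarith
  have hrho1 : ρ + 1 ≤ (m ^ 2 + 1) * (Nat.log 2 r + 1) := by
    rw [hρ]
    nlinarith [Nat.zero_le (Nat.log 2 r)]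
  calc (T + 1) * (2 * T + 2) = 2 * (T + 1) ^ 2 := by ring
    _ ≤ 2 * ((lvl w * (ρ + 1) ^ 2) ^ H * ((K + 1) * (ρ + 1) ^ d)) ^ 2 := by
        gcongr
        exact hT1.trans (Nat.mul_le_mul_left _ ht1)
    _ = 2 * lvl w ^ (2 * H) * (ρ + 1) ^ (4 * H + 2 * d) * (K + 1) ^ 2 := by
        have key : ∀ (L a k1 : ℕ), 2 * ((L * a ^ 2) ^ H * (k1 * a ^ d)) ^ 2 =
            2 * L ^ (2 * H) * a ^ (4 * H + 2 * d) * k1 ^ 2 := by
          intro L a k1
          ring
        exact key _ _ _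
    _ ≤ 2 * lvl w ^ (2 * H) * ((m ^ 2 + 1) * (Nat.log 2 r + 1)) ^ (4 * H + 2 * d) *
        (K + 1) ^ 2 := by gcongr
    _ = bigC m d * (K + 1) ^ 2 * (Nat.log 2 r + 1) ^ (4 * H + 2 * d) := by
        unfold bigC
        rw [mul_pow]
        ring

end Pool.Agent.V7H36.LR
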