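import Pool.Agent.V7H36.LR.Node
import Pool.Agent.V7H36.LR.Cov

/-!
# Homogeneous sequences: covers when the length is large compared with the logarithm of the rank
-/

set_option autoImplicit false

namespace Pool.Agent.V7H36.LR

open Finset

/-- `z` is below `w` in the two-sided order -/
def Bel {W : Type} [Monoid W] (z w : W) : Prop := ∃ a c, z = a * w * c

section
variable {W X Y : Type} [Monoid W] {T : ℕ → X → Y → W}

theorem Bel.refl (z : W) : Bel z z := ⟨1, 1, by simp⟩

theorem Bel.trans {z w v : W} (h : Bel z w) (h' : Bel w v) : Bel z v := by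
  obtain ⟨a, c, rfl⟩ := h
  obtain ⟨a', c', rfl⟩ := h'
  exact ⟨a * a', c' * c, by simp only [mul_assoc]⟩

theorem bel_left (a w : W) : Bel (a * w) w := ⟨a, 1, by simp⟩

theorem bel_right (w a : W) : Bel (w * a) w := ⟨1, a, by simp⟩

theorem bel_mid (a w c : W) : Bel (a * w * c) w := ⟨a, c, rfl⟩

theorem Homog.mul_ne_one_left (h : Homog T) {a b : W} (ha : a ≠ 1) : a * b ≠ 1 := by
  rcases h.gen b with rfl | ⟨x', y', rfl⟩
  · simpa using ha
  · rcases h.gen a with rfl | ⟨x, y, rfl⟩
    · exact absurd rfl ha
    · obtain ⟨xs, ys, h1⟩ := h.hmul (fun _ => x) (fun _ => y) (fun _ => x') (fun _ => y')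
      rw [← h1 0 0]
      exact h.ne_one _ _ _

theorem Homog.mul_ne_one_right (h : Homog T) {a b : W} (hb : b ≠ 1) : a * b ≠ 1 := by
  rcases h.gen a with rfl | ⟨x, y, rfl⟩
  · simpa using hb
  · exact h.mul_ne_one_left (h.ne_one _ _ _)

theorem Homog.value (h : Homog T) {w : W} (hw : w ≠ 1) : ∃ x y, T 0 x y = w :=
  (h.gen w).resolve_left hw

/-- the middle part stays in the class of `z` -/
def SS (T : ℕ → X → Y → W) (a b : ℕ) (m n z : W) (x : ℕ → X) (y : ℕ → Y) : Prop :=
  Bel z (m * TT T a b x y * n)

/-- a return element that is a value -/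
theorem Homog.ret [Finite W] (h : Homog T) {m t n z : W} (ht : t ≠ 1) (hm : Bel m z)
    (hz : Bel z (m * t * n)) : ∃ v, v ≠ 1 ∧ m = m * t * n * v := by
  obtain ⟨a, c, hac⟩ := hm.trans hz
  obtain ⟨v, hv⟩ := stabR (m := m) (t := t * n) (b := m * t * n) (by rw [mul_assoc]) hac
  by_cases h1 : v = 1
  · subst h1
    refine ⟨t * n, h.mul_ne_one_left ht, ?_⟩
    rw [mul_one] at hv
    rw [← hv, ← mul_assoc, ← hv]
  · exact ⟨v, h1, hv⟩

/-- survival is a rectangle -/
theorem mid_rect [Fintype W] (h : Homog T) {k R : ℕ} (hR : RankHyp T k R)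
    (hk : Fintype.card W * R < 2 ^ k) {a b : ℕ} (hab : a < b) {m n z : W} (hm : Bel m z)
    (hn1 : n ≠ 1) {x x' : ℕ → X} {y y' : ℕ → Y} (h1 : SS T a b m n z x y)
    (h2 : SS T a b m n z x' y') : SS T a b m n z x y' := by
  have hp := P2.interval h hab x x' y y'
  obtain ⟨v, hv1, hv⟩ := h.ret (h.val_ne_one hab x y) hm h1
  obtain ⟨v', hv1', hv'⟩ := h.ret (h.val_ne_one hab x' y') hm h2
  obtain ⟨c, d, hcd⟩ := P2.diag (h.value hv1) (h.value hv1')
  have hs := (hp.mul h (P2.const (h.value hn1))).mul h hcd
  by_contra hcon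
  have h3 : ∀ w, m * (TT T a b x y' * n * c) * w ≠ m := by
    intro w hw
    apply hcon
    have h4 : Bel z m := by
      obtain ⟨p, q, hpq⟩ := h1
      exact ⟨p, TT T a b x y * n * q, by rw [hpq]; simp only [mul_assoc]⟩
    refine h4.trans ⟨1, c * w, ?_⟩
    rw [one_mul]
    conv_lhs => rw [← hw]
    simp only [mul_assoc]
  have h5 := rank_eq h hR hs (m := m) (by
      conv_rhs => rw [hv]
      simp only [mul_assoc]) (by
      conv_rhs => rw [hv']
      simp only [mul_assoc]) h3
  omega

/-- on the surviving rectangle columns that agree in one row agree in all rows -/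
theorem mid_const [Fintype W] (h : Homog T) {k R : ℕ} (hk0 : 0 < k) (hR : RankHyp T k R)
    (hk : Fintype.card W * R < 2 ^ k) {a b : ℕ} (hab : a < b) {m n z : W} (hm : Bel m z)
    (hn : Bel n z) (hm1 : m ≠ 1) (hn1 : n ≠ 1) {x x' : ℕ → X} {y y' : ℕ → Y}
    (h1 : SS T a b m n z x y) (h2 : SS T a b m n z x' y')
    (heq : m * TT T a b x y * n = m * TT T a b x y' * n) :
    m * TT T a b x' y * n = m * TT T a b x' y' * n := by
  have hp := P2.interval h hab x x' y y'
  have h3 : SS T a b m n z x' y := mid_rect h hR hk hab hm hn1 h2 h1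
  unfold SS at h1 h2 h3
  have ht00 := h.val_ne_one hab x y
  set t00 := TT T a b x y with ht00'
  set t01 := TT T a b x y' with ht01'
  set t10 := TT T a b x' y with ht10'
  set t11 := TT T a b x' y' with ht11'
  obtain ⟨p, q, hpq⟩ := hm.trans h1
  obtain ⟨v, hv⟩ := stabR (m := m) (t := t00 * n) (b := m * t00 * n) (by rw [mul_assoc]) hpq
  obtain ⟨p', q', hpq'⟩ := hn.trans h1
  obtain ⟨w, hw⟩ := stabL (m := n) (t := m * t00) (b := m * t00 * n) rfl hpq'
  set bb := m * t00 * n with hbb
  set u := v * t00 * w with hu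
  have hu1 : u ≠ 1 := by
    rw [hu, mul_assoc]
    exact h.mul_ne_one_right (h.mul_ne_one_left ht00)
  have hbub : bb * u * bb = bb := by
    calc bb * u * bb = (bb * v) * t00 * (w * bb) := by rw [hu]; simp only [mul_assoc]
      _ = m * t00 * n := by rw [← hv, ← hw]
      _ = bb := rfl
  set e := bb * u with he
  have hee : e * e = e := by
    rw [he, ← mul_assoc, hbub]
  have fac : ∀ t : W, e * (m * t * n) = m * t * n ∧ m * t * n * u * bb = m * t * n := by
    intro t
    constructor
    · calc e * (m * t * n) = e * ((bb * v) * t * n) := by rw [← hv]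
        _ = (bb * u * bb) * v * t * n := by rw [he]; simp only [mul_assoc]
        _ = (bb * v) * t * n := by rw [hbub]
        _ = m * t * n := by rw [← hv]
    · calc m * t * n * u * bb = m * t * (w * bb) * u * bb := by rw [← hw]
        _ = m * t * w * (bb * u * bb) := by simp only [mul_assoc]
        _ = m * t * (w * bb) := by rw [hbub]; simp only [mul_assoc]
        _ = m * t * n := by rw [← hw]
  have gfac : ∀ t : W, Bel z (m * t * n) → ∃ s, e = (m * t * n * u) * s := by
    intro t ht
    have h4 : Bel e (m * t * n * u) := by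
      have h5 : Bel e bb := bel_right _ _
      have h6 : Bel bb z := (show Bel bb m from ⟨1, t00 * n, by
        rw [hbb]; simp only [mul_assoc, one_mul]⟩).trans hm
      have h7 : Bel (m * t * n) (m * t * n * u) := by
        refine ⟨1, bb, ?_⟩
        rw [one_mul, (fac t).2]
      exact ((h5.trans h6).trans ht).trans h7
    obtain ⟨a1, c1, hac⟩ := h4
    exact stabR (m := e) (t := m * t * n * u) (b := m * t * n * u)
      (by
        calc m * t * n * u = (e * (m * t * n)) * u := by rw [(fac t).1]
          _ = e * (m * t * n * u) := by rw [mul_assoc]) hac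
  set g := m * t10 * n * u with hg
  set g' := m * t11 * n * u with hg'
  have heg : e * g = g := by rw [hg, ← mul_assoc, (fac t10).1]
  have heg' : e * g' = g' := by rw [hg', ← mul_assoc, (fac t11).1]
  have hge : g * e = g := by rw [he, hg, ← mul_assoc, (fac t10).2]
  have hge' : g' * e = g' := by rw [he, hg', ← mul_assoc, (fac t11).2]
  obtain ⟨s, hs⟩ := gfac t10 h3
  obtain ⟨s', hs'⟩ := gfac t11 h2
  obtain ⟨N, hN, hgN⟩ := exists_pow_eq (e := e) (g := g) hs hge
  have hepow : ∀ j, e ^ (j + 1) = e := by
    intro j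
    induction j with
    | zero => simp
    | succ j ih => rw [pow_succ, ih, hee]
  have hpat : P2 T e e g g' := by
    have h4 := (((P2.const (h.value hm1)).mul h hp).mul h (P2.const (h.value hn1))).mul h
      (P2.const (h.value hu1))
    have e1 : m * t01 * n * u = e := by rw [← heq]
    have e2 : m * t00 * n * u = e := by rw [← hbb]
    rw [e1, e2] at h4
    exact h4
  obtain ⟨N', rfl⟩ : ∃ N', N = N' + 1 := ⟨N - 1, by omega⟩
  have hpat2 := hpat.mul h (hpat.rows.pow h (2 * N'))
  rw [hepow, hee] at hpat2
  have hg2 : g * g ^ (2 * N' + 1) = e := by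
    rw [← pow_succ', show 2 * N' + 1 + 1 = (N' + 1) + (N' + 1) by ring, pow_add, hgN, hee]
  rw [hg2] at hpat2
  set hh := g' * g ^ (2 * N' + 1) with hhh
  have hhe : hh * e = hh := by
    rw [hhh, mul_assoc, pow_succ, mul_assoc (g ^ (2 * N')) g e, hge]
  have heh : e * hh = hh := by
    rw [hhh, ← mul_assoc, heg']
  have hhg : hh * g = g' := by
    rw [hhh, mul_assoc, ← pow_succ, show 2 * N' + 1 + 1 = (N' + 1) + (N' + 1) by ring, pow_add,
      hgN, hee, hge']
  have hfin : hh = e := by
    by_contra hne
    have := rank_and h hk0 hR hpat2 hee heh hhe ⟨g * s', by rw [← mul_assoc, hhg, ← hs']⟩ hne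
    omega
  have hgg : g' = g := by rw [← hhg, hfin, heg]
  rw [← (fac t10).2, ← (fac t11).2, ← hg, ← hg', hgg]

/-- the middle part has a small cover -/
theorem mid_cov [Fintype W] (h : Homog T) {k R : ℕ} (hk0 : 0 < k) (hR : RankHyp T k R)
    (hk : Fintype.card W * R < 2 ^ k) {a b : ℕ} (hab : a ≤ b) {m n z : W} (hm : Bel m z)
    (hn : Bel n z) (hm1 : m ≠ 1) (hn1 : n ≠ 1) :
    Cov (Fintype.card W) (fun x y => m * TT T a b x y * n = z) := by
  classical
  have : Nonempty W := ⟨1⟩
  have hcard : 0 < Fintype.card W := Fintype.card_pos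
  rcases eq_or_lt_of_le hab with rfl | hab
  · refine ((Cov.const (m * n = z)).mono hcard).congr (fun x y => ?_)
    simp [TT, iv_self]
  by_cases hex : ∃ x y, SS T a b m n z x y
  swap
  · push Not at hex
    refine Cov.of_fintype Empty (by simp) (fun i _ => i.elim) (fun i _ => i.elim) (fun x y => ?_)
    constructor
    · intro hz
      exact absurd (by unfold SS; rw [hz]; exact Bel.refl z) (hex x y)
    · rintro ⟨i, _⟩
      exact i.elim
  obtain ⟨x0, y0, h0⟩ := hex
  have rect : ∀ {x x' y y'}, SS T a b m n z x y → SS T a b m n z x' y' → SS T a b m n z x y' :=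
    fun h1 h2 => mid_rect h hR hk hab hm hn1 h1 h2
  let yy : W → (ℕ → Y) := fun w =>
    if hw : ∃ y, (∃ x, SS T a b m n z x y) ∧ m * TT T a b x0 y * n = w then hw.choose else y0
  have hyy : ∀ w, (∃ y, (∃ x, SS T a b m n z x y) ∧ m * TT T a b x0 y * n = w) →
      (∃ x, SS T a b m n z x (yy w)) ∧ m * TT T a b x0 (yy w) * n = w := by
    intro w hw
    have : yy w = hw.choose := dif_pos hw
    rw [this]
    exact hw.choose_spec
  refine Cov.of_fintype W le_rfl
    (fun w x => (∃ y, SS T a b m n z x y) ∧ m * TT T a b x (yy w) * n = z)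
    (fun w y => (∃ x, SS T a b m n z x y) ∧ m * TT T a b x0 y * n = w) (fun x y => ?_)
  have main : ∀ w, (∃ y, SS T a b m n z x y) → (∃ x, SS T a b m n z x y) →
      m * TT T a b x0 y * n = w → m * TT T a b x y * n = m * TT T a b x (yy w) * n := by
    intro w hx hy hw
    obtain ⟨⟨x2, hx2⟩, h4⟩ := hyy w ⟨y, hy, hw⟩
    obtain ⟨y1, hy1⟩ := hx
    obtain ⟨x1, hx1⟩ := hy
    exact mid_const h hk0 hR hk hab hm hn hm1 hn1 (x := x0) (x' := x) (y := y) (y' := yy w)
      (rect h0 hx1) (rect hy1 hx2) (hw.trans h4.symm)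
  constructor
  · intro hz
    have hS : SS T a b m n z x y := by unfold SS; rw [hz]; exact Bel.refl z
    refine ⟨m * TT T a b x0 y * n, ⟨⟨y, hS⟩, ?_⟩, ⟨x, hS⟩, rfl⟩
    rw [← main _ ⟨y, hS⟩ ⟨x, hS⟩ rfl, hz]
  · rintro ⟨w, ⟨hx, hz⟩, hy, hw⟩
    rw [main w hx hy hw, hz]

/-- number of elements above `z` -/
noncomputable def up [Fintype W] (z : W) : ℕ :=
  letI := Classical.decPred (fun w : W => Bel z w)
  (Finset.univ.filter (fun w => Bel z w)).card

theorem up_pos [Fintype W] (z : W) : 0 < up z := by
  classical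
  unfold up
  exact Finset.card_pos.2 ⟨z, by simpa using Bel.refl z⟩

theorem up_lt [Fintype W] {z w : W} (h : Bel z w) (h' : ¬ Bel w z) : up w < up z := by
  classical
  unfold up
  apply Finset.card_lt_card
  rw [Finset.ssubset_iff_of_subset]
  · exact ⟨z, by simpa using Bel.refl z, by simpa using h'⟩
  · intro v hv
    simp only [Finset.mem_filter, Finset.mem_univ, true_and] at hv ⊢
    exact h.trans hv

theorem up_le [Fintype W] (z : W) : up z ≤ Fintype.card W := by
  classical
  unfold up
  exact Finset.card_le_univ _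

theorem Cov.guard' {A B : Type} {S : A → B → Prop} {N : ℕ} {p : Prop} (h : p → Cov N S) :
    Cov N (fun a b => p ∧ S a b) := by
  by_cases hp : p
  · exact (h hp).congr (fun a b => by simp [hp])
  · refine Cov.of_fintype Empty (by simp) (fun i _ => i.elim) (fun i _ => i.elim) (fun x y => ?_)
    constructor
    · exact fun h => absurd h.1 hp
    · rintro ⟨i, _⟩
      exact i.elim

theorem iUnion_le {A B ι : Type} [Fintype ι] {S : ι → A → B → Prop} {N M : ℕ}
    (h : ∀ i, Cov N (S i)) (hM : Fintype.card ι * N ≤ M) : Cov M (fun a b => ∃ i, S i a b) :=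
  (Cov.iUnion h).mono hM

/-- the bound in the middle range -/
theorem mid_main [Fintype W] (h : Homog T) {k R c : ℕ} (hk0 : 0 < k) (hc0 : 0 < c)
    (hR : RankHyp T k R) (hk : Fintype.card W * R < 2 ^ k)
    (hc : ∀ j z, Cov c (fun x y => T j x y = z)) (ν : ℕ) :
    ∀ z : W, up z ≤ ν → ∀ a b, a ≤ b → b ≤ k →
      Cov ((2 * (k ^ 2 * Fintype.card W ^ 5 * c ^ 2)) ^ (2 ^ ν - 1))
        (fun x y => TT T a b x y = z) := by
  classical
  have : Nonempty W := ⟨1⟩
  have hcard : 0 < Fintype.card W := Fintype.card_pos
  set A := 2 * (k ^ 2 * Fintype.card W ^ 5 * c ^ 2) with hA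
  have hApos : 0 < A := by positivity
  induction ν with
  | zero => intro z hz; have := up_pos z; omega
  | succ ν ih =>
    intro z hz a b hab hbk
    set F := A ^ (2 ^ ν - 1) with hF
    have hF1 : 1 ≤ F := Nat.one_le_pow _ _ hApos
    have hFs : A ^ (2 ^ (ν + 1) - 1) = A * F ^ 2 := by
      rw [hF, ← pow_mul, ← pow_succ']
      congr 1
      have : 0 < 2 ^ ν := by positivity
      rw [pow_succ]
      omega
    rw [hFs]
    by_cases hz1 : z = 1
    · subst hz1
      rcases eq_or_lt_of_le hab with rfl | hab
      · refine ((Cov.const True).mono (Nat.mul_pos hApos (by positivity))).congr (fun x y => ?_)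
        simp [TT, iv_self]
      · refine ((Cov.const False).mono (Nat.mul_pos hApos (by positivity))).congr (fun x y => ?_)
        simp only [iff_false]
        exact h.val_ne_one hab x y
    rcases eq_or_lt_of_le hab with rfl | hab
    · refine ((Cov.const False).mono (Nat.mul_pos hApos (by positivity))).congr (fun x y => ?_)
      simp only [TT, iv_self, iff_false]
      exact Ne.symm hz1
    have h1z : ¬ Bel (1 : W) z := by
      rintro ⟨p, q, hpq⟩
      exact h.mul_ne_one_left (h.mul_ne_one_right hz1) hpq.symm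
    have hz1' : Bel z (1 : W) := ⟨z, 1, by simp⟩
    let st : W → Prop := fun w => Bel z w ∧ ¬ Bel w z
    have hst : ∀ w, st w → up w ≤ ν := fun w hw => by
      have := up_lt hw.1 hw.2
      omega
    -- second kind
    have C2 : Cov (k * (Fintype.card W * (Fintype.card W * Fintype.card W)) * (F * (c * F)))
        (fun x y => ∃ i : Fin k × W × W × W, (a ≤ i.1.1 ∧ i.1.1 < b ∧ i.2.1 * i.2.2.1 * i.2.2.2 = z ∧
          st i.2.1 ∧ st i.2.2.2) ∧ (TT T a i.1.1 x y = i.2.1 ∧ (T i.1.1 (x i.1.1) (y i.1.1) = i.2.2.1 ∧
            TT T (i.1.1 + 1) b x y = i.2.2.2))) := by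
      refine iUnion_le (N := F * (c * F)) (fun i => ?_) (by simp)
      refine Cov.guard' (fun hg => ?_)
      refine (ih _ (hst _ hg.2.2.2.1) a i.1.1 hg.1 (by omega)).and (Cov.and ?_ ?_)
      · exact (hc i.1.1 i.2.2.1).lift (fun x : ℕ → X => x i.1.1) (fun y : ℕ → Y => y i.1.1)
      · exact ih _ (hst _ hg.2.2.2.2) _ _ (by omega) hbk
    -- first kind
    have C1 : Cov (k * (k * (Fintype.card W * (Fintype.card W * (Fintype.card W *
          Fintype.card W)))) * (F * (c * (Fintype.card W * (c * F)))))
        (fun x y => ∃ i : Fin k × Fin k × W × W × W × W,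
          (a ≤ i.1.1 ∧ i.1.1 < i.2.1.1 ∧ i.2.1.1 < b ∧
            st i.2.2.1 ∧ st i.2.2.2.2.2 ∧ Bel (i.2.2.1 * i.2.2.2.1) z ∧
            Bel (i.2.2.2.2.1 * i.2.2.2.2.2) z) ∧
          (TT T a i.1.1 x y = i.2.2.1 ∧ (T i.1.1 (x i.1.1) (y i.1.1) = i.2.2.2.1 ∧
            ((i.2.2.1 * i.2.2.2.1) * TT T (i.1.1 + 1) i.2.1.1 x y *
              (i.2.2.2.2.1 * i.2.2.2.2.2) = z ∧
            (T i.2.1.1 (x i.2.1.1) (y i.2.1.1) = i.2.2.2.2.1 ∧
            TT T (i.2.1.1 + 1) b x y = i.2.2.2.2.2))))) := by
      refine iUnion_le (N := F * (c * (Fintype.card W * (c * F)))) (fun i => ?_) (by simp)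
      refine Cov.guard' (fun hg => ?_)
      obtain ⟨g1, g2, g3, g4, g5, g6, g7⟩ := hg
      refine (ih _ (hst _ g4) a i.1.1 g1 (by omega)).and (Cov.and ?_ (Cov.and ?_ (Cov.and ?_ ?_)))
      · exact (hc i.1.1 i.2.2.2.1).lift (fun x : ℕ → X => x i.1.1) (fun y : ℕ → Y => y i.1.1)
      · refine mid_cov h hk0 hR hk (by omega) g6 g7 ?_ ?_
        · intro h1
          rw [h1] at g6
          exact h1z g6
        · intro h1
          rw [h1] at g7
          exact h1z g7
      · exact (hc i.2.1.1 i.2.2.2.2.1).lift (fun x : ℕ → X => x i.2.1.1)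
          (fun y : ℕ → Y => y i.2.1.1)
      · exact ih _ (hst _ g5) _ _ (by omega) hbk
    refine ((C2.or C1).mono ?_).congr (fun x y => ?_)
    · have e1 : k * (Fintype.card W * (Fintype.card W * Fintype.card W)) * (F * (c * F)) ≤
          (k ^ 2 * Fintype.card W ^ 5 * c ^ 2) * F ^ 2 := by
        have h1 : k * 1 ≤ k * k := Nat.mul_le_mul_left _ hk0
        have h2 : Fintype.card W ^ 3 * 1 ≤ Fintype.card W ^ 3 * Fintype.card W ^ 2 :=
          Nat.mul_le_mul_left _ (Nat.one_le_pow _ _ hcard)
        have h3 : c * 1 ≤ c * c := Nat.mul_le_mul_left _ hc0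
        calc k * (Fintype.card W * (Fintype.card W * Fintype.card W)) * (F * (c * F))
            = (k * 1) * (Fintype.card W ^ 3 * 1) * (c * 1) * F ^ 2 := by ring
          _ ≤ (k * k) * (Fintype.card W ^ 3 * Fintype.card W ^ 2) * (c * c) * F ^ 2 := by gcongr
          _ = _ := by ring
      have e2 : k * (k * (Fintype.card W * (Fintype.card W * (Fintype.card W *
          Fintype.card W)))) * (F * (c * (Fintype.card W * (c * F)))) =
          (k ^ 2 * Fintype.card W ^ 5 * c ^ 2) * F ^ 2 := by ring
      rw [e2]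
      calc _ ≤ (k ^ 2 * Fintype.card W ^ 5 * c ^ 2) * F ^ 2 +
            (k ^ 2 * Fintype.card W ^ 5 * c ^ 2) * F ^ 2 := by gcongr
        _ = A * F ^ 2 := by rw [hA]; ring
    · constructor
      · intro hxy
        -- first position where the prefix is below z
        have hexr : ∃ r, a ≤ r ∧ Bel (TT T a r x y) z := ⟨b, hab.le, by rw [hxy]; exact Bel.refl z⟩
        set r := Nat.find hexr with hr
        have hr1 : a ≤ r := (Nat.find_spec hexr).1
        have hr2 : Bel (TT T a r x y) z := (Nat.find_spec hexr).2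
        have hr3 : ∀ s, s < r → a ≤ s → ¬ Bel (TT T a s x y) z := fun s hs has hb =>
          Nat.find_min hexr hs ⟨has, hb⟩
        have hrb : r ≤ b := Nat.find_min' hexr ⟨hab.le, by rw [hxy]; exact Bel.refl z⟩
        have hra : a < r := by
          rcases eq_or_lt_of_le hr1 with hh | hh
          · exfalso
            rw [← hh] at hr2
            simp only [TT, iv_self] at hr2
            exact h1z hr2
          · exact hh
        obtain ⟨l, hl⟩ : ∃ l, r = l + 1 := ⟨r - 1, by omega⟩
        -- last position where the suffix is below z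
        let ps : ℕ → Prop := fun s => Bel (TT T s b x y) z
        have hpa : ps a := by
          change Bel (TT T a b x y) z
          rw [hxy]; exact Bel.refl z
        set s := Nat.findGreatest ps b with hs
        have hs1 : ps s := Nat.findGreatest_spec (P := ps) hab.le hpa
        have hsa : a ≤ s := Nat.le_findGreatest hab.le hpa
        have hs2 : ∀ j, s < j → j ≤ b → ¬ ps j := fun j h1 h2 =>
          Nat.findGreatest_is_greatest h1 h2
        have hsb : s < b := by
          rcases eq_or_lt_of_le (Nat.findGreatest_le (P := ps) b) with hh | hh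
          · exfalso
            rw [← hs] at hh
            rw [hh] at hs1
            change Bel (TT T b b x y) z at hs1
            simp only [TT, iv_self] at hs1
            exact h1z hs1
          · exact hh
        have hpre : st (TT T a l x y) := by
          refine ⟨?_, hr3 l (by omega) (by omega)⟩
          have : TT T a l x y * TT T l b x y = z := by
            rw [← hxy]
            exact iv_mul _ (by omega) (by omega)
          rw [← this]
          exact bel_right _ _
        by_cases hcase : r ≤ s
        · right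
          refine ⟨(⟨l, by omega⟩, ⟨s, by omega⟩, TT T a l x y, T l (x l) (y l), T s (x s) (y s),
            TT T (s + 1) b x y), ⟨by simp only; omega, by simp only; omega, by simp only; omega,
              hpre, ⟨?_, hs2 (s + 1) (by omega) (by omega)⟩, ?_, ?_⟩, rfl, rfl, ?_, rfl, rfl⟩
          · have : TT T a (s + 1) x y * TT T (s + 1) b x y = z := by
              rw [← hxy]
              exact iv_mul _ (by omega) (by omega)
            simp only
            rw [← this]
            exact bel_left _ _
          · have : TT T a l x y * T l (x l) (y l) = TT T a r x y := by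
              rw [hl]
              exact (iv_right (fun l => T l (x l) (y l)) (by omega)).symm
            simp only
            rw [this]
            exact hr2
          · have : T s (x s) (y s) * TT T (s + 1) b x y = TT T s b x y :=
              (iv_left (fun l => T l (x l) (y l)) hsb).symm
            simp only
            rw [this]
            exact hs1
          · have e1 : TT T a l x y * T l (x l) (y l) = TT T a (l + 1) x y :=
              (iv_right (fun l => T l (x l) (y l)) (by omega)).symm
            have e2 : T s (x s) (y s) * TT T (s + 1) b x y = TT T s b x y :=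
              (iv_left (fun l => T l (x l) (y l)) hsb).symm
            simp only
            rw [e1, e2]
            unfold TT
            rw [iv_mul _ (by omega) (by omega), iv_mul _ (by omega) (by omega)]
            exact hxy
        · left
          have hlb : l < b := by omega
          have hbk' : l < k := by omega
          refine ⟨(⟨l, hbk'⟩, TT T a l x y, T l (x l) (y l), TT T (l + 1) b x y),
            ⟨by simp only; omega, hlb, ?_, hpre, ⟨?_, hs2 (l + 1) (by omega) (by omega)⟩⟩,
            rfl, rfl, rfl⟩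
          · simp only
            rw [mul_assoc]
            have e2 : T l (x l) (y l) * TT T (l + 1) b x y = TT T l b x y :=
              (iv_left (fun l => T l (x l) (y l)) hlb).symm
            rw [e2]
            unfold TT
            rw [iv_mul _ (by omega) (by omega)]
            exact hxy
          · have : TT T a (l + 1) x y * TT T (l + 1) b x y = z := by
              rw [← hxy]
              exact iv_mul _ (by omega) (by omega)
            simp only
            rw [← this]
            exact bel_left _ _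
      · rintro (⟨i, ⟨g1, g2, g3, _, _⟩, h1, h2, h3⟩ | ⟨i, ⟨g1, g2, g3, _, _, _, _⟩, h1, h2, h3, h4, h5⟩)
        · rw [← g3, ← h1, ← h2, ← h3]
          unfold TT
          rw [mul_assoc]
          have e2 := (iv_left (fun l => T l (x l) (y l)) g2).symm
          rw [e2, iv_mul _ g1 g2.le]
        · rw [← h3, ← h1, ← h2, ← h4, ← h5]
          have e1 : TT T a i.1.1 x y * T i.1.1 (x i.1.1) (y i.1.1) = TT T a (i.1.1 + 1) x y :=
            (iv_right (fun l => T l (x l) (y l)) (by omega)).symm
          have e2 : T i.2.1.1 (x i.2.1.1) (y i.2.1.1) * TT T (i.2.1.1 + 1) b x y =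
              TT T i.2.1.1 b x y :=
            (iv_left (fun l => T l (x l) (y l)) g3).symm
          rw [e1, e2]
          unfold TT
          rw [iv_mul _ (by omega) (by omega), iv_mul _ (by omega) (by omega)]

end

end Pool.Agent.V7H36.LR
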