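import Mathlib

/-!
# Finite monoids: stability, idempotent powers; ordered products
-/

set_option autoImplicit false

namespace Pool.Agent.V7H36.LR

section
variable {W : Type} [Monoid W]

theorem exists_pow_idem [Finite W] (w : W) : ∃ N, 0 < N ∧ w ^ N * w ^ N = w ^ N := by
  obtain ⟨i, j, hij, h⟩ := Finite.exists_ne_map_eq_of_infinite (fun n : ℕ => w ^ n)
  wlog hlt : i < j generalizing i j
  · exact this j i hij.symm h.symm (lt_of_le_of_ne (not_lt.1 hlt) hij.symm)
  obtain ⟨p, rfl⟩ := Nat.exists_eq_add_of_le hlt.le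
  have hp : 0 < p := by omega
  have h1 : ∀ n, i ≤ n → w ^ (n + p) = w ^ n := by
    intro n hn
    obtain ⟨m, rfl⟩ := Nat.exists_eq_add_of_le hn
    rw [show i + m + p = m + (i + p) by ring, pow_add, ← h, ← pow_add, add_comm]
  have h2 : ∀ c n, i ≤ n → w ^ (n + c * p) = w ^ n := by
    intro c
    induction c with
    | zero => intro n _; simp
    | succ c ih =>
      intro n hn
      rw [show n + (c + 1) * p = n + c * p + p by ring, h1 _ (by omega), ih n hn]
  refine ⟨(i + 1) * p, by positivity, ?_⟩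
  rw [← pow_add]
  exact h2 (i + 1) _ (by nlinarith)

theorem stabR [Finite W] {m t a c b : W} (hb : b = m * t) (hm : m = a * b * c) :
    ∃ v, m = b * v := by
  obtain ⟨N, hN, hi⟩ := exists_pow_idem (t * c)
  have h1 : ∀ n, m = a ^ n * m * (t * c) ^ n := by
    intro n
    induction n with
    | zero => simp
    | succ n ih =>
      calc m = a * b * c := hm
        _ = a * (m * t) * c := by rw [hb]
        _ = a * m * (t * c) := by simp only [mul_assoc]
        _ = a * (a ^ n * m * (t * c) ^ n) * (t * c) := by rw [← ih]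
        _ = a ^ (n + 1) * m * (t * c) ^ (n + 1) := by
            rw [pow_succ' a, pow_succ (t * c)]
            simp only [mul_assoc]
  have h2 : m * (t * c) ^ N = m := by
    calc m * (t * c) ^ N = a ^ N * m * (t * c) ^ N * (t * c) ^ N := by rw [← h1 N]
      _ = a ^ N * m * ((t * c) ^ N * (t * c) ^ N) := by simp only [mul_assoc]
      _ = m := by rw [hi, ← h1 N]
  obtain ⟨n, rfl⟩ : ∃ n, N = n + 1 := ⟨N - 1, by omega⟩
  refine ⟨c * (t * c) ^ n, ?_⟩
  rw [hb]
  conv_lhs => rw [← h2]
  rw [pow_succ']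
  simp only [mul_assoc]

theorem stabL [Finite W] {m t a c b : W} (hb : b = t * m) (hm : m = a * b * c) :
    ∃ v, m = v * b := by
  obtain ⟨N, hN, hi⟩ := exists_pow_idem (a * t)
  have h1 : ∀ n, m = (a * t) ^ n * m * c ^ n := by
    intro n
    induction n with
    | zero => simp
    | succ n ih =>
      calc m = a * b * c := hm
        _ = a * (t * m) * c := by rw [hb]
        _ = (a * t) * m * c := by simp only [mul_assoc]
        _ = (a * t) * ((a * t) ^ n * m * c ^ n) * c := by rw [← ih]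
        _ = (a * t) ^ (n + 1) * m * c ^ (n + 1) := by
            rw [pow_succ' (a * t), pow_succ c]
            simp only [mul_assoc]
  have h2 : (a * t) ^ N * m = m := by
    calc (a * t) ^ N * m = (a * t) ^ N * ((a * t) ^ N * m * c ^ N) := by rw [← h1 N]
      _ = ((a * t) ^ N * (a * t) ^ N) * m * c ^ N := by simp only [mul_assoc]
      _ = m := by rw [hi, ← h1 N]
  obtain ⟨n, rfl⟩ : ∃ n, N = n + 1 := ⟨N - 1, by omega⟩
  refine ⟨(a * t) ^ n * a, ?_⟩
  rw [hb]
  conv_lhs => rw [← h2]
  rw [pow_succ]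
  simp only [mul_assoc]

/-- an element that divides a right identity `e` of itself has a power equal to `e` -/
theorem exists_pow_eq [Finite W] {e g s : W} (h1 : e = g * s) (h2 : g * e = g) :
    ∃ N, 0 < N ∧ g ^ N = e := by
  have h3 : ∀ n, 0 < n → e = g ^ n * s ^ n := by
    intro n hn
    induction n with
    | zero => omega
    | succ n ih =>
      rcases Nat.eq_zero_or_pos n with rfl | hn'
      · simpa using h1
      · calc e = g ^ n * s ^ n := ih hn'
          _ = g ^ n * e * s ^ n := by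
            obtain ⟨k, rfl⟩ : ∃ k, n = k + 1 := ⟨n - 1, by omega⟩
            rw [pow_succ g, mul_assoc (g ^ k) g e, h2]
          _ = g ^ n * (g * s) * s ^ n := by rw [h1]
          _ = g ^ (n + 1) * s ^ (n + 1) := by
            rw [pow_succ g, pow_succ' s]
            simp only [mul_assoc]
  obtain ⟨N, hN, hi⟩ := exists_pow_idem g
  refine ⟨N, hN, ?_⟩
  have h4 : g ^ N * e = e := by
    calc g ^ N * e = g ^ N * (g ^ N * s ^ N) := by rw [← h3 N hN]
      _ = e := by rw [← mul_assoc, hi, ← h3 N hN]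
  have h5 : g ^ N * e = g ^ N := by
    obtain ⟨k, rfl⟩ : ∃ k, N = k + 1 := ⟨N - 1, by omega⟩
    rw [pow_succ g, mul_assoc (g ^ k), h2]
  rw [← h5, h4]

/-- product of `n` consecutive values starting at `a` -/
def pr (d : ℕ → W) (a : ℕ) : ℕ → W
  | 0 => 1
  | n + 1 => pr d a n * d (a + n)

/-- product over `[a, b)` -/
def iv (d : ℕ → W) (a b : ℕ) : W := pr d a (b - a)

theorem pr_add (d : ℕ → W) (a m n : ℕ) : pr d a (m + n) = pr d a m * pr d (a + m) n := by
  induction n with
  | zero => simp [pr]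
  | succ n ih =>
    rw [← add_assoc, pr, ih, pr, mul_assoc, add_assoc]

theorem iv_self (d : ℕ → W) (a : ℕ) : iv d a a = 1 := by simp [iv, pr]

theorem iv_mul (d : ℕ → W) {a b c : ℕ} (h1 : a ≤ b) (h2 : b ≤ c) :
    iv d a b * iv d b c = iv d a c := by
  obtain ⟨m, rfl⟩ := Nat.exists_eq_add_of_le h1
  obtain ⟨n, rfl⟩ := Nat.exists_eq_add_of_le h2
  unfold iv
  rw [show a + m - a = m by omega, show a + m + n - (a + m) = n by omega,
    show a + m + n - a = m + n by omega, pr_add]

theorem iv_one (d : ℕ → W) (a : ℕ) : iv d a (a + 1) = d a := by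
  simp [iv, pr]

theorem iv_right (d : ℕ → W) {a b : ℕ} (h : a ≤ b) : iv d a (b + 1) = iv d a b * d b := by
  rw [← iv_mul d h (Nat.le_succ b), iv_one]

theorem iv_left (d : ℕ → W) {a b : ℕ} (h : a < b) : iv d a b = d a * iv d (a + 1) b := by
  rw [← iv_mul d (Nat.le_succ a) (Nat.succ_le_of_lt h), iv_one]

theorem pr_congr {d d' : ℕ → W} {a n : ℕ} (h : ∀ l, a ≤ l → l < a + n → d l = d' l) :
    pr d a n = pr d' a n := by
  induction n with
  | zero => rfl
  | succ n ih =>
    rw [pr, pr, ih (fun l h1 h2 => h l h1 (by omega)), h (a + n) (by omega) (by omega)]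

theorem iv_congr {d d' : ℕ → W} {a b : ℕ} (h : ∀ l, a ≤ l → l < b → d l = d' l) :
    iv d a b = iv d' a b :=
  pr_congr (fun l h1 h2 => h l h1 (by omega))

theorem iv_const (e : W) (he : e * e = e) {a b : ℕ} (h : a < b) : iv (fun _ => e) a b = e := by
  obtain ⟨n, rfl⟩ := Nat.exists_eq_add_of_lt h
  induction n with
  | zero => exact iv_one _ _
  | succ n ih =>
    rw [show a + (n + 1) + 1 = (a + n + 1) + 1 by ring, iv_right _ (by omega), ih (by omega), he]

theorem iv_mem {V : Set W} (hV : ∀ v ∈ V, ∀ w ∈ V, v * w ∈ V) {d : ℕ → W} {a b : ℕ} (h : a < b)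
    (hd : ∀ l, a ≤ l → l < b → d l ∈ V) : iv d a b ∈ V := by
  obtain ⟨n, rfl⟩ := Nat.exists_eq_add_of_lt h
  induction n with
  | zero => rw [add_zero, iv_one]; exact hd a le_rfl (by omega)
  | succ n ih =>
    rw [show a + (n + 1) + 1 = (a + n + 1) + 1 by ring, iv_right _ (by omega)]
    exact hV _ (ih (by omega) (fun l h1 h2 => hd l h1 (by omega))) _ (hd _ (by omega) (by omega))

/-- two equal prefix products -/
theorem exists_prefix [Fintype W] (d : ℕ → W) (a : ℕ) : ∃ i j, i < j ∧ j ≤ Fintype.card W ∧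
    iv d a (a + i) = iv d a (a + j) := by
  classical
  obtain ⟨i, j, hij, h⟩ := Fintype.exists_ne_map_eq_of_card_lt
    (fun i : Fin (Fintype.card W + 1) => iv d a (a + i.1)) (by simp)
  rcases lt_or_gt_of_ne hij with hlt | hlt
  · exact ⟨i, j, hlt, by omega, h⟩
  · exact ⟨j, i, hlt, by omega, h.symm⟩

/-- two equal suffix products -/
theorem exists_suffix [Fintype W] (d : ℕ → W) (b : ℕ) : ∃ i j, i < j ∧ j ≤ Fintype.card W ∧
    iv d (b - i) b = iv d (b - j) b := by
  classical
  obtain ⟨i, j, hij, h⟩ := Fintype.exists_ne_map_eq_of_card_lt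
    (fun i : Fin (Fintype.card W + 1) => iv d (b - i.1) b) (by simp)
  rcases lt_or_gt_of_ne hij with hlt | hlt
  · exact ⟨i, j, hlt, by omega, h⟩
  · exact ⟨j, i, hlt, by omega, h.symm⟩

end

end Pool.Agent.V7H36.LR
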