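import Pool.Agent.V7H36.LR.Rank
import Pool.Agent.V7H36.LR.Semi

/-!
# Homogeneous sequences of two-party functions with values in a finite monoid: rank bounds
-/

set_option autoImplicit false

namespace Pool.Agent.V7H36.LR

open Finset

/-- a homogeneous sequence: the same `4 × 4` patterns occur at all places, they are closed under
multiplication, and every element of the monoid but the identity is a value -/
structure Homog {W X Y : Type} [Monoid W] (T : ℕ → X → Y → W) : Prop where
  hT : ∀ (j j' : ℕ) (xs : Fin 4 → X) (ys : Fin 4 → Y), ∃ (xs' : Fin 4 → X) (ys' : Fin 4 → Y),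
    ∀ a b, T j' (xs' a) (ys' b) = T j (xs a) (ys b)
  hmul : ∀ (xs : Fin 4 → X) (ys : Fin 4 → Y) (xs' : Fin 4 → X) (ys' : Fin 4 → Y),
    ∃ (xs'' : Fin 4 → X) (ys'' : Fin 4 → Y), ∀ a b,
      T 0 (xs'' a) (ys'' b) = T 0 (xs a) (ys b) * T 0 (xs' a) (ys' b)
  ne_one : ∀ j x y, T j x y ≠ 1
  gen : ∀ w : W, w = 1 ∨ ∃ x y, T 0 x y = w

/-- the value of the part `[a, b)` -/
def TT {W X Y : Type} [Monoid W] (T : ℕ → X → Y → W) (a b : ℕ) (x : ℕ → X) (y : ℕ → Y) : W :=
  iv (fun l => T l (x l) (y l)) a b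

/-- `2 × 2` patterns -/
def P2 {W X Y : Type} (T : ℕ → X → Y → W) (a b c d : W) : Prop :=
  ∃ x x' y y', T 0 x y = a ∧ T 0 x y' = b ∧ T 0 x' y = c ∧ T 0 x' y' = d

section
variable {W X Y : Type} [Monoid W] {T : ℕ → X → Y → W}

/-- all patterns of intervals occur at every place -/
theorem Homog.pat (h : Homog T) {a b : ℕ} (hab : a < b) (xs : Fin 4 → ℕ → X)
    (ys : Fin 4 → ℕ → Y) (j : ℕ) : ∃ (xs' : Fin 4 → X) (ys' : Fin 4 → Y), ∀ i i',
      T j (xs' i) (ys' i') = TT T a b (xs i) (ys i') := by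
  have key : ∀ n, ∃ (xs' : Fin 4 → X) (ys' : Fin 4 → Y), ∀ i i',
      T 0 (xs' i) (ys' i') = TT T a (a + n + 1) (xs i) (ys i') := by
    intro n
    induction n with
    | zero =>
      obtain ⟨xs', ys', h1⟩ := h.hT a 0 (fun i => xs i a) (fun i => ys i a)
      refine ⟨xs', ys', fun i i' => ?_⟩
      rw [h1]
      simp [TT, iv_one]
    | succ n ih =>
      obtain ⟨xs', ys', h1⟩ := ih
      obtain ⟨xs2, ys2, h2⟩ := h.hT (a + n + 1) 0 (fun i => xs i (a + n + 1))
        (fun i => ys i (a + n + 1))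
      obtain ⟨xs3, ys3, h3⟩ := h.hmul xs' ys' xs2 ys2
      refine ⟨xs3, ys3, fun i i' => ?_⟩
      rw [h3, h1, h2]
      unfold TT
      rw [show a + (n + 1) + 1 = a + n + 1 + 1 by ring]
      exact (iv_right _ (by omega : a ≤ a + n + 1)).symm
  obtain ⟨n, rfl⟩ := Nat.exists_eq_add_of_lt hab
  obtain ⟨xs', ys', h1⟩ := key n
  obtain ⟨xs2, ys2, h2⟩ := h.hT 0 j xs' ys'
  exact ⟨xs2, ys2, fun i i' => by rw [h2, h1]⟩

theorem P2.real (h : Homog T) {a b c d : W} (hp : P2 T a b c d) (l : ℕ) :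
    ∃ (xs : Bool → X) (ys : Bool → Y), T l (xs false) (ys false) = a ∧
      T l (xs false) (ys true) = b ∧ T l (xs true) (ys false) = c ∧
      T l (xs true) (ys true) = d := by
  obtain ⟨x, x', y, y', h1, h2, h3, h4⟩ := hp
  obtain ⟨xs', ys', h5⟩ := h.hT 0 l ![x, x', x, x] ![y, y', y, y]
  refine ⟨fun i => if i then xs' 1 else xs' 0, fun i => if i then ys' 1 else ys' 0, ?_⟩
  simp [h5, h1, h2, h3, h4]

theorem P2.mul (h : Homog T) {a b c d a' b' c' d' : W} (hp : P2 T a b c d)
    (hp' : P2 T a' b' c' d') : P2 T (a * a') (b * b') (c * c') (d * d') := by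
  obtain ⟨x, x', y, y', h1, h2, h3, h4⟩ := hp
  obtain ⟨u, u', v, v', h1', h2', h3', h4'⟩ := hp'
  obtain ⟨xs', ys', h5⟩ := h.hmul ![x, x', x, x] ![y, y', y, y] ![u, u', u, u] ![v, v', v, v]
  refine ⟨xs' 0, xs' 1, ys' 0, ys' 1, ?_⟩
  simp [h5, h1, h2, h3, h4, h1', h2', h3', h4']

theorem P2.pow (h : Homog T) {a b c d : W} (hp : P2 T a b c d) (n : ℕ) :
    P2 T (a ^ (n + 1)) (b ^ (n + 1)) (c ^ (n + 1)) (d ^ (n + 1)) := by
  induction n with
  | zero => simpa using hp
  | succ n ih =>
    have := ih.mul h hp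
    simpa [pow_succ] using this

omit [Monoid W] in
theorem P2.rows {a b c d : W} (hp : P2 T a b c d) : P2 T a a c c := by
  obtain ⟨x, x', y, y', h1, h2, h3, h4⟩ := hp
  exact ⟨x, x', y, y, h1, h1, h3, h3⟩

omit [Monoid W] in
theorem P2.const {w : W} (hw : ∃ x y, T 0 x y = w) : P2 T w w w w := by
  obtain ⟨x, y, h⟩ := hw
  exact ⟨x, x, y, y, h, h, h, h⟩

omit [Monoid W] in
theorem P2.diag {v w : W} (hv : ∃ x y, T 0 x y = v) (hw : ∃ x y, T 0 x y = w) :
    ∃ b c, P2 T v b c w := by
  obtain ⟨x, y, h⟩ := hv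
  obtain ⟨x', y', h'⟩ := hw
  exact ⟨_, _, x, x', y, y', h, rfl, rfl, h'⟩

theorem P2.interval (h : Homog T) {a b : ℕ} (hab : a < b) (x x' : ℕ → X) (y y' : ℕ → Y) :
    P2 T (TT T a b x y) (TT T a b x y') (TT T a b x' y) (TT T a b x' y') := by
  obtain ⟨xs', ys', h1⟩ := h.pat hab ![x, x', x, x] ![y, y', y, y] 0
  refine ⟨xs' 0, xs' 1, ys' 0, ys' 1, ?_⟩
  simp [h1]

theorem Homog.val (h : Homog T) {a b : ℕ} (hab : a < b) (x : ℕ → X) (y : ℕ → Y) :
    ∃ x' y', T 0 x' y' = TT T a b x y := by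
  obtain ⟨u, _, v, _, h1, _⟩ := P2.interval h hab x x y y
  exact ⟨u, v, h1⟩

theorem Homog.val_ne_one (h : Homog T) {a b : ℕ} (hab : a < b) (x : ℕ → X) (y : ℕ → Y) :
    TT T a b x y ≠ 1 := by
  obtain ⟨x', y', h1⟩ := h.val hab x y
  rw [← h1]
  exact h.ne_one _ _ _

/-- the rank hypothesis -/
def RankHyp [Fintype W] (T : ℕ → X → Y → W) (k R : ℕ) : Prop :=
  ∀ z : W, RL ℝ R (fun (x : ℕ → X) (y : ℕ → Y) => ind ℝ (TT T 0 k x y = z))

/-- any weighted sum of the indicators -/
theorem RankHyp.weighted [Fintype W] {k R : ℕ} (hR : RankHyp T k R) (χ : W → ℂ) :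
    RL ℂ (Fintype.card W * R) (fun (x : ℕ → X) (y : ℕ → Y) => χ (TT T 0 k x y)) := by
  classical
  have h1 : ∀ z ∈ (Finset.univ : Finset W), RL ℂ R (fun (x : ℕ → X) (y : ℕ → Y) =>
      χ z * ind ℂ (TT T 0 k x y = z)) := by
    intro z _
    have := (hR z).toComplex.smul (χ z)
    refine this.congr (fun x y => ?_)
    rw [ind_toComplex]
  have h2 := RL.sum Finset.univ h1
  rw [Finset.card_univ] at h2
  refine h2.congr (fun x y => ?_)
  rw [Finset.sum_eq_single (TT T 0 k x y)]
  · rw [ind_true rfl, mul_one]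
  · intro z _ hz
    rw [ind_false (Ne.symm hz), mul_zero]
  · simp

theorem iv_fix {m : W} {d : ℕ → W} {a b : ℕ} (hab : a ≤ b)
    (h : ∀ l, a ≤ l → l < b → m * d l = m) : m * iv d a b = m := by
  obtain ⟨n, rfl⟩ := Nat.exists_eq_add_of_le hab
  induction n with
  | zero => simp [iv_self]
  | succ n ih =>
    rw [← add_assoc, iv_right _ (by omega), ← mul_assoc,
      ih (by omega) (fun l h1 h2 => h l h1 (by omega)), h _ (by omega) (by omega)]

/-- extend a finite 0/1 sequence -/
def ext {k : ℕ} (s : Fin k → Bool) (l : ℕ) : Bool := if h : l < k then s ⟨l, h⟩ else false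

/-- **first rank lemma** -/
theorem rank_eq [Fintype W] (h : Homog T) {k R : ℕ} (hR : RankHyp T k R) {a b c d m : W}
    (hp : P2 T a b c d) (h1 : m * a = m) (h2 : m * d = m) (h3 : ∀ w, m * b * w ≠ m) :
    2 ^ k ≤ Fintype.card W * R := by
  classical
  have hreal := fun l => hp.real h l
  choose xs ys ha hb hc hd using hreal
  have hrl := hR.weighted (fun w => ind ℂ (m * w = m))
  have h4 := hrl.card_le_of_isUnit (ι := Fin k → Bool) (fun s l => xs l (ext s l))
    (fun t l => ys l (ext t l)) ?_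
  · simpa using h4
  refine isUnit_lex (fun s t => ind ℂ (m * TT T 0 k (fun l => xs l (ext s l))
    (fun l => ys l (ext t l)) = m)) ?_ ?_
  · intro s
    have : m * TT T 0 k (fun l => xs l (ext s l)) (fun l => ys l (ext s l)) = m := by
      refine iv_fix (Nat.zero_le _) (fun l _ _ => ?_)
      beta_reduce
      cases hs : ext s l
      · rw [ha]; exact h1
      · rw [hd]; exact h2
    rw [ind_true this]
    exact one_ne_zero
  · intro s t i heq hs ht
    refine ind_false ?_
    have hi := i.2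
    unfold TT
    rw [← iv_mul _ (Nat.zero_le i.1) hi.le, ← mul_assoc, iv_left _ hi]
    have e1 : m * iv (fun l => T l (xs l (ext s l)) (ys l (ext t l))) 0 i.1 = m := by
      refine iv_fix (Nat.zero_le _) (fun l _ hl => ?_)
      have hst : ext s l = ext t l := by
        unfold ext
        have hlk : l < k := by omega
        rw [dif_pos hlk, dif_pos hlk]
        exact heq ⟨l, hlk⟩ hl
      simp only [hst]
      cases ht : ext t l
      · rw [ha]; exact h1
      · rw [hd]; exact h2
    have hs' : ext s i.1 = false := by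
      unfold ext
      rw [dif_pos hi]
      exact hs
    have ht' : ext t i.1 = true := by
      unfold ext
      rw [dif_pos hi]
      exact ht
    rw [e1]
    simp only [hs', ht', hb]
    rw [← mul_assoc]
    exact h3 _

/-- **second rank lemma** -/
theorem rank_and [Fintype W] (h : Homog T) {k R : ℕ} (hk : 0 < k) (hR : RankHyp T k R) {e g : W}
    (hp : P2 T e e e g) (he : e * e = e) (h1 : e * g = g) (h2 : g * e = g)
    (h3 : ∃ s, e = g * s) (hne : g ≠ e) :
    2 ^ k ≤ Fintype.card W * R := by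
  classical
  obtain ⟨s, hs⟩ := h3
  have hex : ∃ N, 0 < N ∧ g ^ N = e := exists_pow_eq hs h2
  set q := Nat.find hex with hq
  have hq1 : 0 < q := (Nat.find_spec hex).1
  have hq2 : g ^ q = e := (Nat.find_spec hex).2
  have hq3 : ∀ n, 0 < n → n < q → g ^ n ≠ e := fun n hn hlt hh => Nat.find_min hex hlt ⟨hn, hh⟩
  have hq4 : q ≠ 1 := by
    intro hh
    rw [hh, pow_one] at hq2
    exact hne hq2
  have hzp := Complex.isPrimitiveRoot_exp q hq1.ne'
  set ζ := Complex.exp (2 * Real.pi * Complex.I / q) with hζ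
  have hζ1 : ζ ≠ 1 := by
    intro hh
    have := hzp.pow_eq_one_iff_dvd 1
    rw [pow_one] at this
    exact hq4 (Nat.dvd_one.1 (this.1 hh))
  have epow : ∀ n, e * e ^ n = e := by
    intro n
    induction n with
    | zero => simp
    | succ n ih => rw [pow_succ, ← mul_assoc, ih, he]
  have egpow : ∀ c n, e * g ^ (n + q * c) = e * g ^ n := by
    intro c n
    rw [add_comm, pow_add, pow_mul, hq2, ← mul_assoc, epow]
  have hdvd : ∀ n, e * g ^ n = e → q ∣ n := by
    intro n hn
    have hlt := Nat.mod_lt n hq1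
    have hdm := Nat.mod_add_div n q
    rw [← hdm, egpow] at hn
    by_cases h0 : n % q = 0
    · exact Nat.dvd_of_mod_eq_zero h0
    · exfalso
      have hpos : 0 < n % q := Nat.pos_of_ne_zero h0
      have : e * g ^ (n % q) = g ^ (n % q) := by
        obtain ⟨k, hk⟩ : ∃ k, n % q = k + 1 := ⟨n % q - 1, by omega⟩
        rw [hk, pow_succ', ← mul_assoc, h1]
      rw [this] at hn
      exact hq3 _ hpos hlt hn
  have hwd : ∀ i j, e * g ^ i = e * g ^ j → ζ ^ i = ζ ^ j := by
    intro i j
    wlog hij : i ≤ j generalizing i j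
    · intro hh
      exact (this j i (le_of_not_ge hij) hh.symm).symm
    intro hh
    obtain ⟨n, rfl⟩ := Nat.exists_eq_add_of_le hij
    have h5 : e * g ^ n = e := by
      have e1 : e * g ^ i * g ^ ((q - 1) * i) = e := by
        rw [mul_assoc, ← pow_add, show i + (q - 1) * i = 0 + q * i by
          obtain ⟨p, hp⟩ : ∃ p, q = p + 1 := ⟨q - 1, by omega⟩
          rw [hp]
          simp only [Nat.add_sub_cancel]
          ring, egpow]
        simp
      have e2 : e * g ^ (i + n) * g ^ ((q - 1) * i) = e * g ^ n := by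
        rw [mul_assoc, ← pow_add, show i + n + (q - 1) * i = n + q * i by
          obtain ⟨p, hp⟩ : ∃ p, q = p + 1 := ⟨q - 1, by omega⟩
          rw [hp]
          simp only [Nat.add_sub_cancel]
          ring, egpow]
      rw [← e2, ← hh, e1]
    rw [pow_add, (hzp.pow_eq_one_iff_dvd n).2 (hdvd n h5), mul_one]
  let χ : W → ℂ := fun w => if hw : ∃ i, w = e * g ^ i then ζ ^ hw.choose else 0
  have hχ : ∀ i, χ (e * g ^ i) = ζ ^ i := by
    intro i
    have hw : ∃ j, e * g ^ i = e * g ^ j := ⟨i, rfl⟩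
    have : χ (e * g ^ i) = ζ ^ hw.choose := dif_pos hw
    rw [this]
    exact (hwd _ _ hw.choose_spec).symm
  have hreal := fun l => hp.real h l
  choose xs ys ha hb hc hd using hreal
  have hrl := hR.weighted χ
  have h4 := hrl.card_le_of_isUnit (ι := Fin k → Bool) (fun s l => xs l (ext s l))
    (fun t l => ys l (ext t l)) ?_
  · simpa using h4
  have hval : ∀ s t : Fin k → Bool, χ (TT T 0 k (fun l => xs l (ext s l))
      (fun l => ys l (ext t l))) = ∏ j, if s j && t j then ζ else 1 := by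
    intro s t
    set d : ℕ → W := fun l => T l (xs l (ext s l)) (ys l (ext t l)) with hdd
    have hd1 : ∀ l, d l = if ext s l && ext t l then g else e := by
      intro l
      simp only [hdd]
      cases hs : ext s l <;> cases ht : ext t l <;> simp [ha, hb, hc, hd]
    have hed : ∀ l, e * d l = d l := by
      intro l
      rw [hd1]
      split_ifs
      · exact h1
      · exact he
    have hprod : ∀ n, ∃ c, e * iv d 0 n = e * g ^ c ∧
        ζ ^ c = ∏ l ∈ Finset.range n, if ext s l && ext t l then ζ else 1 := by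
      intro n
      induction n with
      | zero => exact ⟨0, by simp [iv_self], by simp⟩
      | succ n ih =>
        obtain ⟨c, hc1, hc2⟩ := ih
        rw [iv_right _ (Nat.zero_le n), ← mul_assoc, hc1, hd1, Finset.prod_range_succ, ← hc2]
        by_cases hb : (ext s n && ext t n) = true
        · rw [if_pos hb, if_pos hb]
          exact ⟨c + 1, by rw [mul_assoc, pow_succ], by rw [pow_succ]⟩
        · rw [if_neg hb, if_neg hb]
          refine ⟨c, ?_, by rw [mul_one]⟩
          rcases Nat.eq_zero_or_pos c with rfl | hc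
          · simp [he]
          · obtain ⟨c', rfl⟩ : ∃ c', c = c' + 1 := ⟨c - 1, by omega⟩
            rw [pow_succ, mul_assoc, mul_assoc, h2]
    obtain ⟨c, hc1, hc2⟩ := hprod k
    have e1 : TT T 0 k (fun l => xs l (ext s l)) (fun l => ys l (ext t l)) = e * iv d 0 k := by
      change iv d 0 k = _
      rw [iv_left d hk, ← mul_assoc, hed]
    rw [e1, hc1, hχ, hc2, Finset.prod_range]
    refine Finset.prod_congr rfl (fun j _ => ?_)
    simp [ext]
  have hmat : Matrix.of (fun s t : Fin k → Bool => χ (TT T 0 k (fun l => xs l (ext s l))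
      (fun l => ys l (ext t l)))) = Matrix.of (fun s t => ∏ j, if s j && t j then ζ else 1) := by
    ext s t
    exact hval s t
  rw [hmat]
  exact isUnit_tensor ζ hζ1

end

end Pool.Agent.V7H36.LR
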