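import Mathlib

/-!
# Functions of two variables of bounded rank
-/

set_option autoImplicit false

namespace Pool.Agent.V7H36.LR

open Finset

/-- `F` is a sum of `r` products `u(a) v(b)` -/
def RL (K : Type) [Field K] {A B : Type} (r : ℕ) (F : A → B → K) : Prop :=
  ∃ (u : A → Fin r → K) (v : Fin r → B → K), ∀ a b, F a b = ∑ i, u a i * v i b

section
variable {K : Type} [Field K] {A B A' B' : Type}

theorem RL.of_fintype {F : A → B → K} (ι : Type) [Fintype ι] {r : ℕ}
    (hr : Fintype.card ι ≤ r) (u : A → ι → K) (v : ι → B → K)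
    (h : ∀ a b, F a b = ∑ i, u a i * v i b) : RL K r F := by
  classical
  obtain ⟨e⟩ : Nonempty (ι ↪ Fin r) := Function.Embedding.nonempty_of_card_le (by simpa using hr)
  refine ⟨fun a j => ∑ i, if e i = j then u a i else 0, fun j b => ∑ i, if e i = j then v i b else 0,
    fun a b => ?_⟩
  rw [h]
  have h1 : ∀ j : Fin r, (∑ i, if e i = j then u a i else 0) * (∑ i, if e i = j then v i b else 0) =
      ∑ i, if e i = j then u a i * v i b else 0 := by
    intro j
    by_cases hj : ∃ i, e i = j
    · obtain ⟨i0, hi0⟩ := hj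
      have h2 : ∀ f : ι → K, (∑ i, if e i = j then f i else 0) = f i0 := by
        intro f
        rw [Finset.sum_eq_single i0]
        · simp [hi0]
        · intro i _ hi
          have : e i ≠ j := fun h => hi (e.injective (h.trans hi0.symm))
          simp [this]
        · simp
      rw [h2, h2, h2]
    · push Not at hj
      have h2 : ∀ f : ι → K, (∑ i, if e i = j then f i else 0) = 0 := by
        intro f
        exact Finset.sum_eq_zero (fun i _ => by simp [hj i])
      rw [h2, h2, h2, zero_mul]
  rw [Finset.sum_congr rfl (fun j _ => h1 j), Finset.sum_comm]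
  refine Finset.sum_congr rfl (fun i _ => ?_)
  simp

theorem RL.mono {F : A → B → K} {r r' : ℕ} (h : RL K r F) (hr : r ≤ r') : RL K r' F := by
  obtain ⟨u, v, h⟩ := h
  exact RL.of_fintype (Fin r) (by simpa using hr) u v h

theorem RL.lift {F : A → B → K} {r : ℕ} (h : RL K r F) (p : A' → A) (q : B' → B) :
    RL K r (fun a b => F (p a) (q b)) := by
  obtain ⟨u, v, h⟩ := h
  exact ⟨fun a => u (p a), fun i b => v i (q b), fun a b => h _ _⟩

theorem RL.const (c : K) : RL K 1 (fun (_ : A) (_ : B) => c) :=
  ⟨fun _ _ => c, fun _ _ => 1, fun _ _ => by simp⟩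

theorem RL.zero : RL K 0 (fun (_ : A) (_ : B) => (0 : K)) :=
  ⟨fun _ _ => 0, fun _ _ => 1, fun _ _ => by simp⟩

theorem RL.add {F G : A → B → K} {r s : ℕ} (h : RL K r F) (h' : RL K s G) :
    RL K (r + s) (fun a b => F a b + G a b) := by
  obtain ⟨u, v, h⟩ := h
  obtain ⟨u', v', h'⟩ := h'
  refine RL.of_fintype (Fin r ⊕ Fin s) (by simp) (fun a => Sum.elim (u a) (u' a))
    (fun i b => Sum.elim (fun i => v i b) (fun i => v' i b) i) (fun a b => ?_)
  rw [h, h', Fintype.sum_sum_type]
  simp

theorem RL.mul {F G : A → B → K} {r s : ℕ} (h : RL K r F) (h' : RL K s G) :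
    RL K (r * s) (fun a b => F a b * G a b) := by
  obtain ⟨u, v, h⟩ := h
  obtain ⟨u', v', h'⟩ := h'
  refine RL.of_fintype (Fin r × Fin s) (by simp) (fun a i => u a i.1 * u' a i.2)
    (fun i b => v i.1 b * v' i.2 b) (fun a b => ?_)
  rw [h, h', Finset.sum_mul_sum, Fintype.sum_prod_type]
  refine Finset.sum_congr rfl (fun i _ => Finset.sum_congr rfl (fun j _ => ?_))
  ring

theorem RL.smul {F : A → B → K} {r : ℕ} (h : RL K r F) (c : K) :
    RL K r (fun a b => c * F a b) := by
  obtain ⟨u, v, h⟩ := h
  refine ⟨fun a i => c * u a i, v, fun a b => ?_⟩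
  beta_reduce
  rw [h, Finset.mul_sum]
  exact Finset.sum_congr rfl (fun i _ => by ring)

theorem RL.sub {F G : A → B → K} {r s : ℕ} (h : RL K r F) (h' : RL K s G) :
    RL K (r + s) (fun a b => F a b - G a b) := by
  have := h.add (h'.smul (-1))
  simpa [sub_eq_add_neg] using this

theorem RL.sum {ι : Type} (s : Finset ι) {F : ι → A → B → K} {r : ℕ}
    (h : ∀ i ∈ s, RL K r (F i)) : RL K (s.card * r) (fun a b => ∑ i ∈ s, F i a b) := by
  classical
  induction s using Finset.induction_on with
  | empty => simpa using (RL.zero (A := A) (B := B) (K := K))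
  | insert i s hi ih =>
    have h1 := (h i (Finset.mem_insert_self i s)).add
      (ih (fun j hj => h j (Finset.mem_insert_of_mem hj)))
    have h2 : (fun a b => F i a b + ∑ j ∈ s, F j a b) = fun a b => ∑ j ∈ insert i s, F j a b := by
      funext a b
      rw [Finset.sum_insert hi]
    rw [h2] at h1
    refine h1.mono ?_
    rw [Finset.card_insert_of_notMem hi]
    ring_nf
    exact le_rfl

theorem RL.prod {ι : Type} (s : Finset ι) {F : ι → A → B → K} {r : ℕ}
    (h : ∀ i ∈ s, RL K r (F i)) : RL K (r ^ s.card) (fun a b => ∏ i ∈ s, F i a b) := by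
  classical
  induction s using Finset.induction_on with
  | empty => simpa using (RL.const (A := A) (B := B) (1 : K))
  | insert i s hi ih =>
    have h1 := (h i (Finset.mem_insert_self i s)).mul
      (ih (fun j hj => h j (Finset.mem_insert_of_mem hj)))
    have h2 : (fun a b => F i a b * ∏ j ∈ s, F j a b) = fun a b => ∏ j ∈ insert i s, F j a b := by
      funext a b
      rw [Finset.prod_insert hi]
    rw [h2] at h1
    refine h1.mono ?_
    rw [Finset.card_insert_of_notMem hi, pow_succ']

theorem RL.congr {F G : A → B → K} {r : ℕ} (h : RL K r F) (hG : ∀ a b, G a b = F a b) :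
    RL K r G := by
  obtain ⟨u, v, h⟩ := h
  exact ⟨u, v, fun a b => (hG a b).trans (h a b)⟩

/-- a nonsingular square submatrix bounds the rank from below -/
theorem RL.card_le_of_isUnit {ι : Type} [Fintype ι] [DecidableEq ι] {F : A → B → K} {r : ℕ}
    (h : RL K r F) (f : ι → A) (g : ι → B)
    (hu : IsUnit (Matrix.of (fun i j => F (f i) (g j)))) : Fintype.card ι ≤ r := by
  obtain ⟨u, v, h⟩ := h
  have e : Matrix.of (fun i j => F (f i) (g j)) =
      (Matrix.of (fun i k => u (f i) k) : Matrix ι (Fin r) K) *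
        (Matrix.of (fun k j => v k (g j)) : Matrix (Fin r) ι K) := by
    ext i j
    simp [Matrix.mul_apply, h]
  have h1 := Matrix.rank_of_isUnit _ hu
  rw [← h1, e]
  calc _ ≤ (Matrix.of (fun i k => u (f i) k) : Matrix ι (Fin r) K).rank :=
        Matrix.rank_mul_le_left _ _
    _ ≤ r := by
        have := Matrix.rank_le_card_width (Matrix.of (fun i k => u (f i) k) : Matrix ι (Fin r) K)
        simpa using this

theorem RL.card_le_of_id {ι : Type} [Fintype ι] [DecidableEq ι] {F : A → B → K} {r : ℕ}
    (h : RL K r F) (f : ι → A) (g : ι → B)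
    (hid : ∀ i j, F (f i) (g j) = if i = j then 1 else 0) : Fintype.card ι ≤ r := by
  refine h.card_le_of_isUnit f g ?_
  have : (Matrix.of (fun i j => F (f i) (g j))) = 1 := by
    ext i j
    simp [hid, Matrix.one_apply]
  rw [this]
  exact isUnit_one

end

/-- indicator -/
noncomputable def ind (K : Type) [Field K] (p : Prop) : K :=
  letI := Classical.propDecidable p
  if p then 1 else 0

section
variable {K : Type} [Field K] {A B : Type}

theorem ind_true {p : Prop} (h : p) : ind K p = 1 := by simp [ind, h]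

theorem ind_false {p : Prop} (h : ¬ p) : ind K p = 0 := by simp [ind, h]

theorem ind_congr {p q : Prop} (h : p ↔ q) : ind K p = ind K q := by
  by_cases hp : p
  · rw [ind_true hp, ind_true (h.1 hp)]
  · rw [ind_false hp, ind_false (fun hq => hp (h.2 hq))]

theorem ind_not {p : Prop} : ind K (¬ p) = 1 - ind K p := by
  by_cases hp : p
  · rw [ind_true hp, ind_false (not_not.2 hp), sub_self]
  · rw [ind_false hp, ind_true hp, sub_zero]

theorem ind_forall {ι : Type} [Fintype ι] {p : ι → Prop} :
    ind K (∀ i, p i) = ∏ i, ind K (p i) := by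
  classical
  by_cases hp : ∀ i, p i
  · rw [ind_true hp, Finset.prod_eq_one (fun i _ => ind_true (hp i))]
  · rw [ind_false hp]
    push Not at hp
    obtain ⟨i, hi⟩ := hp
    exact (Finset.prod_eq_zero (Finset.mem_univ i) (ind_false hi)).symm

/-- from real to complex -/
theorem RL.toComplex {F : A → B → ℝ} {r : ℕ} (h : RL ℝ r F) :
    RL ℂ r (fun a b => (F a b : ℂ)) := by
  obtain ⟨u, v, h⟩ := h
  refine ⟨fun a i => (u a i : ℂ), fun i b => (v i b : ℂ), fun a b => ?_⟩
  beta_reduce
  rw [h]
  push_cast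
  rfl

theorem ind_toComplex (p : Prop) : ((ind ℝ p : ℝ) : ℂ) = ind ℂ p := by
  by_cases hp : p
  · rw [ind_true hp, ind_true hp]
    norm_num
  · rw [ind_false hp, ind_false hp]
    norm_num

/-- a matrix of rank `r` is a sum of `r` products -/
theorem RL.of_rank {X Y : Type} [Fintype X] [Fintype Y] (F : Matrix X Y ℝ) :
    RL ℝ F.rank (fun x y => F x y) := by
  classical
  let S := Submodule.span ℝ (Set.range F.col)
  have hS : Module.finrank ℝ S = F.rank := (F.rank_eq_finrank_span_cols).symm
  let b : Module.Basis (Fin F.rank) ℝ S := (Module.finBasisOfFinrankEq ℝ S hS)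
  have hmem : ∀ y, F.col y ∈ S := fun y => Submodule.subset_span ⟨y, rfl⟩
  refine ⟨fun x i => (b i : X → ℝ) x, fun i y => b.repr ⟨F.col y, hmem y⟩ i, fun x y => ?_⟩
  have h1 := b.sum_repr ⟨F.col y, hmem y⟩
  have h2 := congrArg (fun s : S => (s : X → ℝ) x) h1
  simp only [Submodule.coe_sum, Finset.sum_apply, Submodule.coe_smul, Pi.smul_apply,
    smul_eq_mul] at h2
  have h3 : F x y = F.col y x := rfl
  change F x y = _
  rw [h3, ← h2]
  exact Finset.sum_congr rfl (fun i _ => mul_comm _ _)

theorem RL.rank_le {X Y : Type} [Fintype X] [Fintype Y] {F : Matrix X Y ℝ} {r : ℕ}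
    (h : RL ℝ r (fun x y => F x y)) : F.rank ≤ r := by
  obtain ⟨u, v, h⟩ := h
  have e : F = (Matrix.of (fun i k => u i k) : Matrix X (Fin r) ℝ) *
        (Matrix.of (fun k j => v k j) : Matrix (Fin r) Y ℝ) := by
    ext i j
    simp [Matrix.mul_apply, h]
  rw [e]
  calc _ ≤ (Matrix.of (fun i k => u i k) : Matrix X (Fin r) ℝ).rank :=
        Matrix.rank_mul_le_left _ _
    _ ≤ r := by
        have := Matrix.rank_le_card_width (Matrix.of (fun i k => u i k) : Matrix X (Fin r) ℝ)
        simpa using this

end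

/-- lexicographically triangular matrices on `Fin k → Bool` are nonsingular -/
theorem isUnit_lex {K : Type} [Field K] {k : ℕ} (M : (Fin k → Bool) → (Fin k → Bool) → K)
    (hd : ∀ s, M s s ≠ 0)
    (ht : ∀ s t (i : Fin k), (∀ j < i, s j = t j) → s i = false → t i = true → M s t = 0) :
    IsUnit (Matrix.of M) := by
  classical
  let N : Matrix (Lex (Fin k → Bool)) (Lex (Fin k → Bool)) K := Matrix.of (fun s t => M s t)
  have h1 : N.BlockTriangular OrderDual.toDual := by
    intro s t hst
    have hst' : s < t := hst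
    obtain ⟨i, hi, hlt⟩ := hst'
    refine ht s t i (fun j hj => hi j hj) ?_ ?_
    · have : (s i : Bool) < t i := hlt
      exact (Bool.lt_iff.1 this).1
    · have : (s i : Bool) < t i := hlt
      exact (Bool.lt_iff.1 this).2
  have h2 : N.det = ∏ i, N i i := Matrix.det_of_isLowerTriangular N h1
  have h3 : N.det ≠ 0 := by
    rw [h2]
    exact Finset.prod_ne_zero_iff.2 (fun i _ => hd i)
  have h4 : IsUnit N := (Matrix.isUnit_iff_isUnit_det N).2 (isUnit_iff_ne_zero.2 h3)
  exact h4

/-- the matrix `∏ κ(s_j, t_j)` with `κ = (1, 1; 1, ζ)`, `ζ ≠ 1` is nonsingular -/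
theorem isUnit_tensor {K : Type} [Field K] {k : ℕ} (ζ : K) (hζ : ζ ≠ 1) :
    IsUnit (Matrix.of (fun s t : Fin k → Bool => ∏ j, if s j && t j then ζ else 1)) := by
  classical
  have hz : ζ - 1 ≠ 0 := sub_ne_zero.2 hζ
  let κ' : Bool → Bool → K := fun a b =>
    if a then (if b then 1 / (ζ - 1) else -1 / (ζ - 1))
    else (if b then -1 / (ζ - 1) else ζ / (ζ - 1))
  let N : Matrix (Fin k → Bool) (Fin k → Bool) K := Matrix.of (fun t u => ∏ j, κ' (t j) (u j))
  have hmul : Matrix.of (fun s t : Fin k → Bool => ∏ j, if s j && t j then ζ else 1) * N = 1 := by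
    ext s u
    rw [Matrix.mul_apply]
    simp only [Matrix.of_apply, N]
    simp_rw [← Finset.prod_mul_distrib]
    have h1 := Finset.prod_univ_sum (fun _ : Fin k => (Finset.univ : Finset Bool))
      (fun j b => (if s j && b then ζ else 1) * κ' b (u j))
    rw [Fintype.piFinset_univ] at h1
    rw [← h1]
    have h2 : ∀ j, ∑ b, (if s j && b then ζ else 1) * κ' b (u j) = if s j = u j then 1 else 0 := by
      intro j
      rw [Fintype.sum_bool]
      cases hs : s j <;> cases hu : u j <;> simp [κ'] <;> field_simp <;> ring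
    rw [Finset.prod_congr rfl (fun j _ => h2 j), Matrix.one_apply]
    by_cases hsu : s = u
    · rw [if_pos hsu]
      exact Finset.prod_eq_one (fun j _ => by rw [hsu, if_pos rfl])
    · rw [if_neg hsu]
      obtain ⟨j, hj⟩ := Function.ne_iff.1 hsu
      exact Finset.prod_eq_zero (Finset.mem_univ j) (by rw [if_neg hj])
  exact (Matrix.isUnit_iff_isUnit_det _).2 (Matrix.isUnit_det_of_right_inverse hmul)

end Pool.Agent.V7H36.LR
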