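import Pool.Agent.V7H36.LR.App

/-!
# The main bound
-/

set_option autoImplicit false

namespace Pool.Agent.V7H36.LR

open Finset
open scoped Pointwise

/-- one level of the factorization tree -/
def nextLog (w ρ t : ℕ) : ℕ := 8 * w + 2 * t + nodeLog w ρ t

/-- `h` levels of the factorization tree -/
def treeLog (w ρ t : ℕ) : ℕ → ℕ
  | 0 => t
  | h + 1 => nextLog w ρ (treeLog w ρ t h)

theorem le_nextLog (w ρ t : ℕ) : t ≤ nextLog w ρ t := by
  unfold nextLog
  omega

theorem le_treeLog (w ρ t h : ℕ) : t ≤ treeLog w ρ t h := by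
  induction h with
  | zero => exact le_rfl
  | succ h ih => exact ih.trans (le_nextLog _ _ _)

/-- the constant of one level -/
def lvl (w : ℕ) : ℕ := (8 * w + 3) + (7 * w + 12) * (w + 1) * 2 ^ (2 ^ w + w + 2)

theorem nextLog_le (w ρ t : ℕ) : nextLog w ρ t + 1 ≤ lvl w * (ρ + 1) ^ 2 * (t + 1) := by
  unfold nextLog nodeLog lvl
  set P := 2 ^ (2 ^ w + w + 2)
  have h1 : (1 : ℕ) ≤ (ρ + 1) * (t + 1) := Nat.succ_le_of_lt (by positivity)
  have h2 : ρ ≤ (ρ + 1) * (t + 1) := by nlinarith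
  have h3 : t ≤ (ρ + 1) * (t + 1) := by nlinarith
  have h4 : 7 * w + 2 * ρ + 2 * t + 8 ≤ (7 * w + 12) * ((ρ + 1) * (t + 1)) := by nlinarith
  have h5 : w + ρ + 1 ≤ (w + 1) * (ρ + 1) := by nlinarith
  have h6 : (7 * w + 2 * ρ + 2 * t + 8) * (w + ρ + 1) * P ≤
      (7 * w + 12) * (w + 1) * P * (ρ + 1) ^ 2 * (t + 1) := by
    calc (7 * w + 2 * ρ + 2 * t + 8) * (w + ρ + 1) * P
        ≤ ((7 * w + 12) * ((ρ + 1) * (t + 1))) * ((w + 1) * (ρ + 1)) * P := by gcongr
      _ = _ := by ring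
  have h7 : 8 * w + 2 * t + 1 ≤ (8 * w + 3) * (ρ + 1) ^ 2 * (t + 1) := by
    have h8 : (1 : ℕ) ≤ (ρ + 1) ^ 2 := Nat.one_le_pow _ _ (by omega)
    calc 8 * w + 2 * t + 1 ≤ (8 * w + 3) * 1 * (t + 1) := by nlinarith
      _ ≤ _ := by gcongr
  calc 8 * w + 2 * t + (7 * w + 2 * ρ + 2 * t + 8) * (w + ρ + 1) * P + 1
      = (8 * w + 2 * t + 1) + (7 * w + 2 * ρ + 2 * t + 8) * (w + ρ + 1) * P := by ring
    _ ≤ (8 * w + 3) * (ρ + 1) ^ 2 * (t + 1) +
        (7 * w + 12) * (w + 1) * P * (ρ + 1) ^ 2 * (t + 1) := Nat.add_le_add h7 h6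
    _ = _ := by ring

theorem treeLog_le (w ρ t h : ℕ) :
    treeLog w ρ t h + 1 ≤ (lvl w * (ρ + 1) ^ 2) ^ h * (t + 1) := by
  induction h with
  | zero => simp [treeLog]
  | succ h ih =>
    calc treeLog w ρ t (h + 1) + 1 ≤ lvl w * (ρ + 1) ^ 2 * (treeLog w ρ t h + 1) :=
          nextLog_le _ _ _
      _ ≤ lvl w * (ρ + 1) ^ 2 * ((lvl w * (ρ + 1) ^ 2) ^ h * (t + 1)) := by gcongr
      _ = _ := by ring

section
variable {M α β : Type} [Monoid M] [Nonempty α] [Nonempty β] [Fintype M]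

theorem fact_claim {g : ℕ → α → β → M} {φ : M → Bool} {n r t w ρ : ℕ}
    (hw : Fintype.card M + 1 ≤ 2 ^ w) (hρ : (r + 1) ^ (Fintype.card M ^ 2) ≤ 2 ^ ρ)
    (hF : RL ℝ r (fun (x : ℕ → α) (y : ℕ → β) => ind ℝ (φ (TT g 0 n x y) = true)))
    (hleaf : ∀ i < n, Claim g φ n t i (i + 1)) {h i j : ℕ} (H : Fact (lab g) h i j)
    (hj : j ≤ n) : Claim g φ n (treeLog w ρ t h) i j := by
  induction H with
  | leaf h i => exact (hleaf i (by omega)).mono (le_treeLog _ _ _ _)
  | bin h i m j H1 H2 ih1 ih2 =>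
    have h1 := ih1 (H2.lt.le.trans hj)
    have h2 := ih2 hj
    refine (Claim.bin (w := w) (by omega) H1.lt.le H2.lt.le hj h1 h2).mono ?_
    simp only [treeLog, nextLog]
    omega
  | idem h c k e hk he hl Hc ih =>
    have hlt : ∀ t < k, c t < c (t + 1) := fun t ht => (Hc t ht).lt
    have hmono : ∀ a b, a ≤ b → b ≤ k → c a ≤ c b := by
      intro a b hab
      induction b, hab using Nat.le_induction with
      | base => intro _; exact le_rfl
      | succ b _ ih =>
        intro hb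
        have h1 := ih (by omega)
        have h2 := hlt b (by omega)
        omega
    have hcl : ∀ l < k, Claim g φ n (treeLog w ρ t h) (c l) (c (l + 1)) := fun l hl =>
      ih l hl ((hmono (l + 1) k (by omega) le_rfl).trans hj)
    set tt := treeLog w ρ t h with htt
    change Claim g φ n (nextLog w ρ tt) (c 0) (c k)
    by_cases hk3 : 3 ≤ k
    · have h1 := claim_interior hw hρ hF c k hk3 e he hl hlt hj hcl
      have h0 := hcl 0 (by omega)
      have h2 := hcl (k - 1) (by omega)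
      rw [zero_add] at h0
      rw [show k - 1 + 1 = k by omega] at h2
      have h3 := Claim.bin (w := w) (by omega) (hmono 0 1 (by omega) (by omega))
        (hmono 1 (k - 1) (by omega) (by omega)) ((hmono (k - 1) k (by omega) le_rfl).trans hj) h0 h1
      have h4 := Claim.bin (w := w) (by omega) (hmono 0 (k - 1) (by omega) (by omega))
        (hmono (k - 1) k (by omega) le_rfl) hj h3 h2
      refine h4.mono ?_
      unfold nextLog
      omega
    · have hk12 : k = 1 ∨ k = 2 := by omega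
      rcases hk12 with rfl | rfl
      · exact (hcl 0 (by omega)).mono (le_nextLog _ _ _)
      · refine (Claim.bin (w := w) (by omega) (hmono 0 1 (by omega) (by omega))
          (hmono 1 2 (by omega) (by omega)) hj (hcl 0 (by omega)) (hcl 1 (by omega))).mono ?_
        unfold nextLog
        omega

/-- height of the factorization trees -/
noncomputable def height (m : ℕ) : ℕ :=
  2 ^ (m ^ 16) * (2 + 3 * (2 ^ (m ^ 16) * 2 ^ (m ^ 16)))

theorem card_lab : Fintype.card (Set (Fin 4 → Fin 4 → M)) = 2 ^ (Fintype.card M ^ 16) := by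
  classical
  rw [Fintype.card_set, Fintype.card_fun, Fintype.card_fun, Fintype.card_fin, ← pow_mul]

/-- the main theorem in terms of covers -/
theorem main_cov {g : ℕ → α → β → M} {φ : M → Bool} {n r t w ρ : ℕ} (hn : 0 < n)
    (hw : Fintype.card M + 1 ≤ 2 ^ w) (hρ : (r + 1) ^ (Fintype.card M ^ 2) ≤ 2 ^ ρ)
    (hF : RL ℝ r (fun (x : ℕ → α) (y : ℕ → β) => ind ℝ (φ (TT g 0 n x y) = true)))
    (hleaf : ∀ i < n, Claim g φ n t i (i + 1)) (v : Bool) :
    Cov (2 ^ treeLog w ρ t (height (Fintype.card M))) (fun x y => φ (TT g 0 n x y) = v) := by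
  classical
  have hfact := simon (lam := lab g) (fun i j k h1 h2 => lab_mul g h1.le h2.le)
    (Fintype.card (Set (Fin 4 → Fin 4 → M))) 0 n hn (up_le _)
  rw [Fintype.card_prod, card_lab] at hfact
  have hcl := fact_claim hw hρ hF hleaf hfact le_rfl
  change Claim g φ n (treeLog w ρ t (height (Fintype.card M))) 0 n at hcl
  by_cases hex : ∃ m ∈ Val g 0 n, φ m = v
  · obtain ⟨m, hm, hv⟩ := hex
    refine (hcl m hm).congr (fun x y => ?_)
    unfold Eqv
    rw [val_self, val_self]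
    simp [hv]
  · push Not at hex
    exact ((Cov.const False).mono Nat.one_le_two_pow).congr
      (fun x y => iff_of_false (hex _ ⟨x, y, rfl⟩) id)

end

end Pool.Agent.V7H36.LR
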